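import Pool.Agent.CP52.Ent

/-!
# The sharp balance lemma
-/

namespace Pool.Agent.CP52

open Pool.Agent.CP51

variable {D : Type}

section

variable {G : Cub D} {l : ℕ}

private lemma sq_rot_Bal (C : G.H l) (i : ℤ) : C.rot.sq i = C.sq (i + 1) := by
  simp only [Cub.H.sq, Cub.H.rot]
  push_cast
  rfl

private lemma sq_rev_Bal (C : G.H l) (i : ℤ) : C.rev.sq i = G.τ (C.sq (-i)) := by
  simp only [Cub.H.sq, Cub.H.rev]
  push_cast
  rfl

private lemma fol_Bal (C : G.H l) (i : ℤ) : G.Fol (C.sq i) (C.sq (i + 1)) := by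
  have h := C.fol (i : ZMod (C.n.1 + 1))
  simp only [Cub.H.sq]
  push_cast
  exact h

private lemma rot_bij_Bal [Fintype D] : Function.Bijective (Cub.H.rot : G.H l → G.H l) := by
  apply Finite.injective_iff_bijective.1
  rintro ⟨n, c, h⟩ ⟨n', c', h'⟩ e
  simp only [Cub.H.rot, Cub.H.mk.injEq] at e
  obtain ⟨rfl, e⟩ := e
  have e1 := eq_of_heq e
  have e2 : c = c' := by
    funext i
    have := congrFun e1 (i - 1)
    simpa using this
  subst e2
  rfl

private lemma rev_rev_Bal (C : G.H l) : C.rev.rev = C := by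
  rcases C with ⟨n, c, h⟩
  simp only [Cub.H.rev, Cub.H.mk.injEq, heq_eq_eq, true_and]
  funext i
  change G.τ (G.τ (c (-(-i)))) = c i
  rw [neg_neg, G.ττ]

private lemma rev_bij_Bal : Function.Bijective (Cub.H.rev : G.H l → G.H l) :=
  Function.Involutive.bijective rev_rev_Bal

variable [Fintype D]

/-- Sums of `s` over an event, rotated. -/
private lemma sum_rot_Bal {s : G.H l → ℝ} (hi : Cub.Inv s) (p : G.H l → Prop)
    [DecidablePred p] :
    (∑ C : G.H l, if p C.rot then s C else 0) = ∑ C : G.H l, if p C then s C else 0 := by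
  have h := (rot_bij_Bal (G := G) (l := l)).sum_comp (fun C => if p C then s C else 0)
  rw [← h]
  refine Finset.sum_congr rfl fun C _ => ?_
  simp only [hi.1 C]

private lemma sum_rev_Bal {s : G.H l → ℝ} (hi : Cub.Inv s) (p : G.H l → Prop)
    [DecidablePred p] :
    (∑ C : G.H l, if p C.rev then s C else 0) = ∑ C : G.H l, if p C then s C else 0 := by
  have h := (rev_bij_Bal (G := G) (l := l)).sum_comp (fun C => if p C then s C else 0)
  rw [← h]
  refine Finset.sum_congr rfl fun C _ => ?_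
  simp only [hi.2 C]

open Classical in
/-- Reversal. -/
private lemma y2_rev_Bal {s : G.H l → ℝ} (hi : Cub.Inv s) (e f : D) :
    Cub.y2 s e f = Cub.y2 s (G.τ f) (G.τ e) := by
  have inj : ∀ a b : D, G.τ a = G.τ b ↔ a = b := fun a b => by
    constructor
    · intro h
      have := congrArg G.τ h
      rwa [G.ττ, G.ττ] at this
    · rintro rfl; rfl
  simp only [Cub.y2]
  rw [← sum_rev_Bal hi (fun C => C.sq 0 = G.τ f ∧ C.sq 1 = G.τ e)]
  rw [← sum_rot_Bal hi (fun C => C.rev.sq 0 = G.τ f ∧ C.rev.sq 1 = G.τ e)]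
  refine Finset.sum_congr rfl fun C _ => ?_
  simp only [sq_rev_Bal, sq_rot_Bal, inj, neg_zero, zero_add, neg_add_cancel]
  simp only [and_comm]

open Classical in
private lemma y1_tau_Bal {s : G.H l → ℝ} (hi : Cub.Inv s) (e : D) :
    Cub.y1 s (G.τ e) = Cub.y1 s e := by
  simp only [Cub.y1]
  rw [← sum_rev_Bal hi (fun C => C.sq 0 = e)]
  refine Finset.sum_congr rfl fun C _ => ?_
  have h : (C.sq 0 = G.τ e) ↔ (C.rev.sq 0 = e) := by
    rw [sq_rev_Bal, neg_zero]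
    constructor
    · intro h; rw [h, G.ττ]
    · intro h; rw [← h, G.ττ]
  simp only [h]

private lemma y2_nonneg_Bal {s : G.H l → ℝ} (hs : ∀ C, 0 ≤ s C) (e f : D) :
    0 ≤ Cub.y2 s e f := by
  simp only [Cub.y2]
  refine Finset.sum_nonneg fun C _ => ?_
  split_ifs
  · exact hs C
  · exact le_rfl

private lemma xx_eq_Bal {s : G.H l → ℝ} (hi : Cub.Inv s) (d : D) :
    Cub.xx s d = 2 * Cub.y2 s (G.τ (G.σ d)) (G.σ (G.σ d)) := by
  classical
  have h1 : Cub.xx s d = Cub.y2 s (G.τ (G.σ d)) (G.σ (G.σ d)) +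
      Cub.y2 s (G.τ (G.σ (G.σ d))) (G.σ d) := by
    simp only [Cub.xx, Cub.y2]
    rw [← Finset.sum_add_distrib]
    refine Finset.sum_congr rfl fun C _ => ?_
    have hf := fol_Bal C 0
    rw [zero_add] at hf
    have e1 : G.σ d ≠ d := G.σne d
    have e2 : G.σ (G.σ d) ≠ G.σ d := G.σne _
    have e3 : G.σ (G.σ d) ≠ d := by
      intro h
      have := congrArg G.σ h
      rw [G.σσσ] at this
      exact e1 this.symm
    have τinj : ∀ a b : D, G.τ a = G.τ b → a = b := fun a b h => by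
      have := congrArg G.τ h
      rwa [G.ττ, G.ττ] at this
    have key : (C.tt 0 = d) ↔ (C.sq 0 = G.τ (G.σ d) ∧ C.sq 1 = G.σ (G.σ d)) ∨
        (C.sq 0 = G.τ (G.σ (G.σ d)) ∧ C.sq 1 = G.σ d) := by
      simp only [Cub.H.tt, zero_add, Cub.th]
      rcases hf with hf | hf
      · rw [if_pos hf]
        constructor
        · intro h
          left
          have h2 : G.σ d = G.τ (C.sq 0) := by rw [← h, G.σσσ]
          constructor
          · rw [h2, G.ττ]
          · rw [hf, h2]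
        · rintro (⟨h, h'⟩ | ⟨h, h'⟩)
          · rw [h, G.ττ, G.σσσ]
          · rw [h, G.ττ, G.σσσ] at hf
            exact absurd (h'.symm.trans hf) e1
      · have hne : C.sq 1 ≠ G.σ (G.τ (C.sq 0)) := by
          rw [hf]; exact G.σne _
        rw [if_neg hne]
        constructor
        · intro h
          right
          have h2 : G.σ (G.σ d) = G.τ (C.sq 0) := by rw [← h, G.σσσ]
          constructor
          · rw [h2, G.ττ]
          · rw [hf, h]
        · rintro (⟨h, h'⟩ | ⟨h, h'⟩)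
          · rw [h, G.ττ, G.σσσ] at hf
            exact absurd (h'.symm.trans hf) e3
          · rw [h, G.ττ, G.σσσ]
    have hex : ¬ ((C.sq 0 = G.τ (G.σ d) ∧ C.sq 1 = G.σ (G.σ d)) ∧
        (C.sq 0 = G.τ (G.σ (G.σ d)) ∧ C.sq 1 = G.σ d)) := by
      rintro ⟨⟨-, h⟩, ⟨-, h'⟩⟩
      exact e2 (h.symm.trans h')
    by_cases hA : C.sq 0 = G.τ (G.σ d) ∧ C.sq 1 = G.σ (G.σ d)
    · have hB : ¬ (C.sq 0 = G.τ (G.σ (G.σ d)) ∧ C.sq 1 = G.σ d) := fun h => hex ⟨hA, h⟩
      rw [if_pos (key.2 (Or.inl hA)), if_pos hA, if_neg hB, add_zero]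
    · by_cases hB : C.sq 0 = G.τ (G.σ (G.σ d)) ∧ C.sq 1 = G.σ d
      · rw [if_pos (key.2 (Or.inr hB)), if_neg hA, if_pos hB, zero_add]
      · rw [if_neg (fun h => (key.1 h).elim hA hB), if_neg hA, if_neg hB, add_zero]
  rw [h1, y2_rev_Bal hi (G.τ (G.σ (G.σ d))) (G.σ d), G.ττ]
  ring

private lemma sum_fol_Bal (s : G.H l → ℝ) (e : D)
    (h : D → ℝ) :
    (open Classical in ∑ C : G.H l, if C.sq 0 = e then s C * h (C.sq 1) else 0) =
      Cub.y2 s e (G.σ (G.τ e)) * h (G.σ (G.τ e)) +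
        Cub.y2 s e (G.σ (G.σ (G.τ e))) * h (G.σ (G.σ (G.τ e))) := by
  classical
  unfold Cub.y2
  rw [Finset.sum_mul, Finset.sum_mul, ← Finset.sum_add_distrib]
  refine Finset.sum_congr rfl fun C _ => ?_
  by_cases h0 : C.sq 0 = e
  · have hf : G.Fol (C.sq 0) (C.sq 1) := by
      have := C.fol (0 : ℤ)
      simpa [Cub.H.sq] using this
    have hne : G.σ (G.σ (G.τ e)) ≠ G.σ (G.τ e) := G.σne _
    rw [h0] at hf
    rcases hf with hf | hf
    · simp [h0, hf, hne.symm]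
    · simp [h0, hf, hne]
  · simp [h0]

private lemma y1_eq_Bal (s : G.H l → ℝ) (e : D) :
    Cub.y1 s e = Cub.y2 s e (G.σ (G.τ e)) + Cub.y2 s e (G.σ (G.σ (G.τ e))) := by
  classical
  have h := sum_fol_Bal s e (fun _ => 1)
  simp only [mul_one] at h
  rw [← h]
  rfl


open Classical in
/-- Every walk has exactly one third dart at its first vertex. -/
private lemma sum_xx_Bal (s : G.H l → ℝ) : ∑ d, Cub.xx s d = ∑ C, s C := by
  simp only [Cub.xx]
  rw [Finset.sum_comm]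
  refine Finset.sum_congr rfl fun C _ => ?_
  rw [Finset.sum_ite_eq Finset.univ (C.tt 0)]
  simp

end

/-- The square root of the mean is close to a number if both terms are. -/
private lemma root_mean_Bal (f b c : ℝ) (hf : 0 ≤ f) :
    (f - √((b ^ 2 + c ^ 2) / 2)) ^ 2 ≤ ((f - b) ^ 2 + (f - c) ^ 2) / 2 := by
  have h1 : (b + c) / 2 ≤ √((b ^ 2 + c ^ 2) / 2) := by
    apply Real.le_sqrt_of_sq_le
    nlinarith [sq_nonneg (b - c)]
  have h2 : √((b ^ 2 + c ^ 2) / 2) ^ 2 = (b ^ 2 + c ^ 2) / 2 := Real.sq_sqrt (by positivity)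
  have h3 := mul_le_mul_of_nonneg_left h1 hf
  nlinarith

/-- If the steps have small divergence from a fair coin then third darts are well paired. -/
theorem balance (G : Cub D) [Fintype D] {l : ℕ} (s : G.H l → ℝ) (hs : ∀ C, 0 ≤ s C)
    (hi : Cub.Inv s) (z : ℝ) (hz : 0 ≤ z) :
    z * (2 - z) * (∑ C, s C) ^ 2 - 8 * z * (∑ C, s C) * KL s ≤
      Fintype.card D * ∑ d : D, Cub.xx s d * Cub.xx s (G.τ d) := by
  classical
  set q : D → ℝ := fun d => Cub.y2 s (G.τ (G.σ d)) (G.σ (G.σ d)) with hq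
  set f : D → ℝ := fun d => √(q d) with hf
  have hq0 : ∀ d, 0 ≤ q d := fun d => y2_nonneg_Bal hs _ _
  have hf0 : ∀ d, 0 ≤ f d := fun d => Real.sqrt_nonneg _
  have hf2 : ∀ d, f d ^ 2 = q d := fun d => Real.sq_sqrt (hq0 d)
  have hxx : ∀ d, Cub.xx s d = 2 * q d := fun d => xx_eq_Bal hi d
  have hσ : Function.Bijective G.σ :=
    Function.bijective_iff_has_inverse.2 ⟨fun d => G.σ (G.σ d), G.σσσ, G.σσσ⟩
  have hτ : Function.Bijective G.τ := Function.Involutive.bijective G.ττ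
  have hA : ∀ d, Cub.y2 s (G.τ d) (G.σ d) = q (G.σ (G.σ d)) := by
    intro d
    simp only [hq, G.σσσ]
  have hB : ∀ d, Cub.y2 s (G.τ d) (G.σ (G.σ d)) = q (G.σ d) := by
    intro d
    simp only [hq, G.σσσ]
    rw [y2_rev_Bal hi, G.ττ]
  have hy : ∀ d, Cub.y1 s (G.τ d) = q (G.σ d) + q (G.σ (G.σ d)) := by
    intro d
    rw [y1_eq_Bal, G.ττ, hA, hB, add_comm]
  have hy' : ∀ d, q (G.σ d) + q (G.σ (G.σ d)) = q (G.σ (G.τ d)) + q (G.σ (G.σ (G.τ d))) := by
    intro d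
    rw [← hy, ← hy, G.ττ, y1_tau_Bal hi]
  set S := ∑ C, s C with hS
  have hS2 : S = 2 * ∑ d, q d := by
    rw [hS, ← sum_xx_Bal s, Finset.mul_sum]
    exact Finset.sum_congr rfl fun d _ => hxx d
  have hS0 : 0 ≤ S := Finset.sum_nonneg fun C _ => hs C
  -- the divergence
  have hKL : ∑ d, (f (G.σ d) - f d) ^ 2 ≤ KL s := by
    have h1 : KL s = ∑ d, KK (q (G.σ (G.σ d))) (q (G.σ d)) := by
      unfold KL
      rw [← hτ.sum_comp (fun e => KK (Cub.y2 s e (G.σ (G.τ e)))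
        (Cub.y2 s e (G.σ (G.σ (G.τ e)))))]
      refine Finset.sum_congr rfl fun d _ => ?_
      rw [G.ττ, hA, hB]
    rw [h1, ← hσ.sum_comp (fun d => (f (G.σ d) - f d) ^ 2)]
    exact Finset.sum_le_sum fun d _ => kk_ge _ _ (hq0 _) (hq0 _)
  -- the local inequality
  have hloc : ∀ d, (f d - f (G.τ d)) ^ 2 ≤
      ((f (G.σ d) - f d) ^ 2 + (f (G.σ (G.σ d)) - f d) ^ 2) +
      ((f (G.σ (G.τ d)) - f (G.τ d)) ^ 2 + (f (G.σ (G.σ (G.τ d))) - f (G.τ d)) ^ 2) := by
    intro d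
    have h1 := root_mean_Bal (f d) (f (G.σ d)) (f (G.σ (G.σ d))) (hf0 d)
    have h2 := root_mean_Bal (f (G.τ d)) (f (G.σ (G.τ d))) (f (G.σ (G.σ (G.τ d)))) (hf0 _)
    rw [hf2, hf2, hy'] at h1
    rw [hf2, hf2] at h2
    generalize √((q (G.σ (G.τ d)) + q (G.σ (G.σ (G.τ d)))) / 2) = y at h1 h2
    nlinarith [sq_nonneg ((f d - y) + (f (G.τ d) - y))]
  have hsum : ∑ d, (f d - f (G.τ d)) ^ 2 ≤ 4 * ∑ d, (f (G.σ d) - f d) ^ 2 := by
    have e1 : ∑ d, (f (G.σ (G.σ d)) - f d) ^ 2 = ∑ d, (f (G.σ d) - f d) ^ 2 := by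
      rw [← hσ.sum_comp (fun d => (f (G.σ (G.σ d)) - f d) ^ 2)]
      refine Finset.sum_congr rfl fun d _ => ?_
      rw [G.σσσ]
      ring
    have e2 : ∑ d, (f (G.σ (G.τ d)) - f (G.τ d)) ^ 2 = ∑ d, (f (G.σ d) - f d) ^ 2 :=
      hτ.sum_comp (fun d => (f (G.σ d) - f d) ^ 2)
    have e3 : ∑ d, (f (G.σ (G.σ (G.τ d))) - f (G.τ d)) ^ 2 =
        ∑ d, (f (G.σ (G.σ d)) - f d) ^ 2 :=
      hτ.sum_comp (fun d => (f (G.σ (G.σ d)) - f d) ^ 2)
    refine (Finset.sum_le_sum fun d _ => hloc d).trans (le_of_eq ?_)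
    rw [Finset.sum_add_distrib, Finset.sum_add_distrib, Finset.sum_add_distrib, e3, e2, e1]
    ring
  set v := ∑ d, 2 * (f d * f (G.τ d)) with hv
  have hexp : ∑ d, (f d - f (G.τ d)) ^ 2 = S - v := by
    have e4 : ∑ d, q (G.τ d) = ∑ d, q d := hτ.sum_comp q
    have e5 : ∀ d, (f d - f (G.τ d)) ^ 2 = q d + q (G.τ d) - 2 * (f d * f (G.τ d)) := by
      intro d
      rw [← hf2, ← hf2]
      ring
    rw [Finset.sum_congr rfl fun d _ => e5 d, Finset.sum_sub_distrib, Finset.sum_add_distrib,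
      e4, hS2, hv]
    ring
  have hvlow : S - 4 * KL s ≤ v := by
    have := hexp ▸ hsum
    linarith
  have hCS : v ^ 2 ≤ Fintype.card D * ∑ d, Cub.xx s d * Cub.xx s (G.τ d) := by
    have h := sq_sum_le_card_mul_sum_sq (s := (Finset.univ : Finset D))
      (f := fun d => 2 * (f d * f (G.τ d)))
    rw [Finset.card_univ] at h
    refine h.trans (le_of_eq ?_)
    congr 1
    refine Finset.sum_congr rfl fun d _ => ?_
    rw [hxx, hxx, ← hf2, ← hf2]
    ring
  refine le_trans ?_ hCS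
  have h1 : 2 * z * S * (S - 4 * KL s) ≤ 2 * z * S * v :=
    mul_le_mul_of_nonneg_left hvlow (by positivity)
  nlinarith [sq_nonneg (v - z * S)]

end Pool.Agent.CP52
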