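import Pool.Agent.CP51.Defs

/-!
# Divergences: definitions
-/

namespace Pool.Agent.CP52

open Pool.Agent.CP51

variable {D : Type}

/-- `p log₂ (2p/(p+r)) + r log₂ (2r/(p+r))`. -/
noncomputable def KK (p r : ℝ) : ℝ :=
  p * Real.logb 2 (2 * p / (p + r)) + r * Real.logb 2 (2 * r / (p + r))

/-- The divergence of one step of the walk from a fair coin. -/
noncomputable def KL {G : Cub D} {l : ℕ} [Fintype D] (s : G.H l → ℝ) : ℝ :=
  ∑ e : D, KK (Cub.y2 s e (G.σ (G.τ e))) (Cub.y2 s e (G.σ (G.σ (G.τ e))))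

end Pool.Agent.CP52
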