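import Pool.Agent.CP52.Defs

/-!
# Binary entropy against the square root
-/

namespace Pool.Agent.CP52

open Real Set

private theorem sinh_ratio {s t : ℝ} (hs : 0 < s) (hst : s ≤ t) : t * sinh s ≤ s * sinh t := by
  have hc : ConvexOn ℝ (Ici (0 : ℝ)) sinh := by
    refine MonotoneOn.convexOn_of_deriv (convex_Ici 0) continuous_sinh.continuousOn
      differentiable_sinh.differentiableOn ?_
    rw [interior_Ici, Real.deriv_sinh]
    exact (cosh_strictMonoOn.monotoneOn).mono Ioi_subset_Ici_self
  have ht : 0 < t := lt_of_lt_of_le hs hst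
  have h := hc.2 (show (0 : ℝ) ∈ Ici (0 : ℝ) from le_refl (0 : ℝ)) (show t ∈ Ici (0 : ℝ) from ht.le)
    (show 0 ≤ 1 - s / t by rw [sub_nonneg, div_le_one ht]; exact hst)
    (show 0 ≤ s / t by positivity) (by ring)
  simp only [smul_eq_mul, mul_zero, zero_add, sinh_zero] at h
  rw [div_mul_cancel₀ _ ht.ne'] at h
  have h2 := mul_le_mul_of_nonneg_left h ht.le
  calc t * sinh s ≤ t * (s / t * sinh t) := h2
    _ = s * sinh t := by field_simp

/-- `2 log 2 √(x (1 - x)) - H(x)`. -/
private noncomputable def Fe (x : ℝ) : ℝ := 2 * log 2 * √(x * (1 - x)) - binEntropy x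

private noncomputable def se (x : ℝ) : ℝ := (log (1 - x) - log x) / 2

private theorem se_pos {x : ℝ} (h0 : 0 < x) (h1 : x < 1 / 2) : 0 < se x := by
  unfold se
  have : log x < log (1 - x) := log_lt_log h0 (by linarith)
  linarith

private theorem se_anti {x y : ℝ} (h0 : 0 < x) (hxy : x ≤ y) (h1 : y < 1 / 2) : se y ≤ se x := by
  unfold se
  have h2 : log x ≤ log y := log_le_log h0 hxy
  have h3 : log (1 - y) ≤ log (1 - x) := log_le_log (by linarith) (by linarith)
  linarith

private theorem sinh_se {x : ℝ} (h0 : 0 < x) (h1 : x < 1 / 2) :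
    2 * sinh (se x) * √(x * (1 - x)) = 1 - 2 * x := by
  have h2 : 0 < 1 - x := by linarith
  have e1 : exp (se x) = √(1 - x) / √x := by
    rw [← exp_log (show 0 < √(1 - x) / √x by positivity), log_div (by positivity) (by positivity),
      log_sqrt h2.le, log_sqrt h0.le]
    congr 1
    unfold se
    ring
  have e2 : exp (-se x) = √x / √(1 - x) := by
    rw [exp_neg, e1, inv_div]
  rw [sinh_eq, e1, e2, sqrt_mul h0.le]
  have a1 : √x ≠ 0 := by positivity
  have a2 : √(1 - x) ≠ 0 := by positivity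
  field_simp
  rw [sq_sqrt h2.le, sq_sqrt h0.le]
  ring

private theorem hasDeriv_Fe {x : ℝ} (h0 : 0 < x) (h1 : x < 1 / 2) :
    HasDerivAt Fe (2 * (log 2 * sinh (se x) - se x)) x := by
  have h2 : 0 < 1 - x := by linarith
  have h3 : x * (1 - x) ≠ 0 := by positivity
  have d1 : HasDerivAt (fun x : ℝ => x * (1 - x)) (1 - 2 * x) x := by
    have := (hasDerivAt_id x).mul ((hasDerivAt_const x (1 : ℝ)).sub (hasDerivAt_id x))
    refine this.congr_deriv ?_
    simp only [id, Pi.sub_apply]
    ring
  have d2 := (d1.sqrt h3).const_mul (2 * log 2)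
  have d3 := hasDerivAt_binEntropy (p := x) h0.ne' (by linarith)
  refine (d2.sub d3).congr_deriv ?_
  have e := sinh_se h0 h1
  have a : √(x * (1 - x)) ≠ 0 := by positivity
  rw [← e]
  unfold se
  field_simp

private theorem cont_Fe : Continuous Fe := by
  unfold Fe
  exact (continuous_const.mul (by fun_prop)).sub binEntropy_continuous

private theorem Fe_nonneg {x : ℝ} (h0 : 0 ≤ x) (h1 : x ≤ 1 / 2) : 0 ≤ Fe x := by
  rcases h0.eq_or_lt with rfl | h0
  · simp [Fe]
  rcases h1.eq_or_lt with rfl | h1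
  · have e : (1 / 2 : ℝ) = 2⁻¹ := by norm_num
    have e2 : √(2⁻¹ * (1 - 2⁻¹) : ℝ) = 2⁻¹ := by
      rw [show (2⁻¹ * (1 - 2⁻¹) : ℝ) = 2⁻¹ ^ 2 by norm_num, sqrt_sq (by norm_num)]
    rw [Fe, e, binEntropy_two_inv, e2]
    apply le_of_eq
    ring
  by_cases hk : se x ≤ log 2 * sinh (se x)
  · -- increasing on [0, x]
    have hm : MonotoneOn Fe (Icc 0 x) := by
      refine monotoneOn_of_deriv_nonneg (convex_Icc 0 x) cont_Fe.continuousOn ?_ ?_
      · intro y hy
        rw [interior_Icc] at hy
        exact (hasDeriv_Fe hy.1 (hy.2.trans h1)).differentiableAt.differentiableWithinAt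
      · intro y hy
        rw [interior_Icc] at hy
        rw [(hasDeriv_Fe hy.1 (hy.2.trans h1)).deriv]
        have hs := se_pos h0 h1
        have ha := se_anti hy.1 hy.2.le h1
        have hr := sinh_ratio hs ha
        have hl : 0 < log 2 := log_pos (by norm_num)
        -- s_y s_x ≤ s_y log 2 sinh s_x ≤ log 2 s_x sinh s_y
        have h5 : se y * se x ≤ se y * (log 2 * sinh (se x)) :=
          mul_le_mul_of_nonneg_left hk (hs.le.trans ha)
        have h6 : log 2 * (se y * sinh (se x)) ≤ log 2 * (se x * sinh (se y)) :=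
          mul_le_mul_of_nonneg_left hr hl.le
        have h7 : se x * se y ≤ se x * (log 2 * sinh (se y)) := by nlinarith
        have h8 := le_of_mul_le_mul_left h7 hs
        linarith
    have h := hm (show (0 : ℝ) ∈ Icc 0 x from ⟨le_refl _, h0.le⟩) (show x ∈ Icc 0 x from ⟨h0.le, le_refl _⟩) h0.le
    have e : Fe 0 = 0 := by simp [Fe]
    rwa [e] at h
  · push Not at hk
    have hm : AntitoneOn Fe (Icc x (1 / 2)) := by
      refine antitoneOn_of_deriv_nonpos (convex_Icc x (1 / 2)) cont_Fe.continuousOn ?_ ?_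
      · intro y hy
        rw [interior_Icc] at hy
        exact (hasDeriv_Fe (h0.trans hy.1) hy.2).differentiableAt.differentiableWithinAt
      · intro y hy
        rw [interior_Icc] at hy
        rw [(hasDeriv_Fe (h0.trans hy.1) hy.2).deriv]
        have hs := se_pos (h0.trans hy.1) hy.2
        have ha := se_anti h0 hy.1.le hy.2
        have hr := sinh_ratio hs ha
        have hl : 0 < log 2 := log_pos (by norm_num)
        have hx := se_pos h0 h1
        -- s_x log2 sinh s_y ≤ s_y log 2 sinh s_x ≤ s_y s_x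
        have h5 : se y * (log 2 * sinh (se x)) ≤ se y * se x :=
          mul_le_mul_of_nonneg_left hk.le hs.le
        have h6 : log 2 * (se x * sinh (se y)) ≤ log 2 * (se y * sinh (se x)) :=
          mul_le_mul_of_nonneg_left hr hl.le
        have h7 : se x * (log 2 * sinh (se y)) ≤ se x * se y := by nlinarith
        have h8 := le_of_mul_le_mul_left h7 hx
        linarith
    have h := hm (show x ∈ Icc x (1 / 2) from ⟨le_refl _, h1.le⟩)
      (show (1 / 2 : ℝ) ∈ Icc x (1 / 2) from ⟨h1.le, le_refl _⟩) h1.le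
    have e : Fe (1 / 2) = 0 := by
      have e : (1 / 2 : ℝ) = 2⁻¹ := by norm_num
      have e2 : √(2⁻¹ * (1 - 2⁻¹) : ℝ) = 2⁻¹ := by
        rw [show (2⁻¹ * (1 - 2⁻¹) : ℝ) = 2⁻¹ ^ 2 by norm_num, sqrt_sq (by norm_num)]
      rw [Fe, e, binEntropy_two_inv, e2]
      ring
    rwa [e] at h

private theorem be_le {x : ℝ} (h0 : 0 ≤ x) (h1 : x ≤ 1) :
    binEntropy x ≤ 2 * log 2 * √(x * (1 - x)) := by
  rcases le_total x (1 / 2) with h | h
  · have := Fe_nonneg h0 h
    unfold Fe at this
    linarith
  · have := Fe_nonneg (x := 1 - x) (by linarith) (by linarith)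
    unfold Fe at this
    rw [binEntropy_one_sub, show (1 - x) * (1 - (1 - x)) = x * (1 - x) by ring] at this
    linarith

private theorem plogb {p t : ℝ} (hp : 0 ≤ p) (ht : 0 < t) :
    p * logb 2 (2 * p / t) = p + t * ((p / t) * log (p / t)) / log 2 := by
  rcases hp.eq_or_lt with rfl | hp
  · simp
  · have hl : log 2 ≠ 0 := (log_pos (by norm_num)).ne'
    rw [logb, mul_div_assoc, log_mul (by norm_num) (by positivity)]
    field_simp

/-- `1 - H(p) ≥ 1 - 2 √(p (1 - p))`, homogeneous form. -/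
theorem kk_ge (p r : ℝ) (hp : 0 ≤ p) (hr : 0 ≤ r) : (√p - √r) ^ 2 ≤ KK p r := by
  rcases (add_nonneg hp hr).eq_or_lt with h | ht
  · have h1 : p = 0 := by linarith
    have h2 : r = 0 := by linarith
    subst h1; subst h2
    simp [KK]
  have hl : 0 < log 2 := log_pos (by norm_num)
  set t := p + r with htd
  have hx0 : 0 ≤ p / t := by positivity
  have hx1 : p / t ≤ 1 := by rw [div_le_one ht]; linarith
  have e1 : 1 - p / t = r / t := by field_simp; linarith
  have hb := be_le hx0 hx1
  rw [binEntropy_eq_negMulLog_add_negMulLog_one_sub, e1, negMulLog, negMulLog] at hb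
  have e2 : √(p / t * (r / t)) = √p * √r / t := by
    rw [show p / t * (r / t) = p * r / t ^ 2 by field_simp, sqrt_div (by positivity),
      sqrt_sq ht.le, sqrt_mul hp]
  rw [e2] at hb
  unfold KK
  rw [← htd, plogb hp ht, plogb hr ht]
  have e3 : (√p - √r) ^ 2 = t - 2 * (√p * √r) := by
    rw [sub_sq, sq_sqrt hp, sq_sqrt hr, htd]
    ring
  rw [e3]
  have h5 : t * (-(p / t) * log (p / t) + -(r / t) * log (r / t)) ≤
      t * (2 * log 2 * (√p * √r / t)) := mul_le_mul_of_nonneg_left hb ht.le
  have e4 : t * (2 * log 2 * (√p * √r / t)) = 2 * log 2 * (√p * √r) := by field_simp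
  rw [e4] at h5
  have h6 : -(2 * (√p * √r)) ≤ t * (p / t * log (p / t)) / log 2 +
      t * (r / t * log (r / t)) / log 2 := by
    rw [← add_div, le_div_iff₀ hl]
    linarith
  linarith

end Pool.Agent.CP52
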