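import Pool.Agent.CP52.Iter
import Pool.Agent.CP51.Graph

/-!
# The upper bound for `ex'(n,k)`
-/

namespace Pool.Agent.CP52

open Pool.Agent.CP51 Pool.Agent.DC31 Filter

private lemma log_small_FinalB :
    ∀ᶠ x : ℝ in atTop, 2 * (2 + Real.logb 2 x) + 1 ≤ x / 496000 := by
  have h := Real.isLittleO_log_id_atTop.def (show (0 : ℝ) < 1 / 8000000 by norm_num)
  filter_upwards [h, eventually_ge_atTop (10000000 : ℝ)] with x hx hx1
  have h0 : (0 : ℝ) ≤ Real.log x := Real.log_nonneg (by linarith)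
  rw [id, Real.norm_of_nonneg h0, Real.norm_of_nonneg (by linarith)] at hx
  have h2 : (1 / 2 : ℝ) ≤ Real.log 2 := by
    have := Real.log_two_gt_d9
    linarith
  have h3 : Real.logb 2 x ≤ 2 * Real.log x := by
    rw [Real.logb, div_le_iff₀ (by linarith)]
    nlinarith
  linarith

/-- The arithmetic: for large `k` the number `p = ⌊(2 - 1/250) k log₂ k⌋` is large enough for
`k` steps of the iteration. -/
private lemma arith_FinalB (L0 P0 : ℕ) : ∃ K : ℕ, ∀ k ≥ K, ∃ L p : ℕ, L0 ≤ L ∧ p ≤ 2 ^ L ∧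
    1 ≤ p ∧ (2 - 1 / 240 : ℝ) * L * k + P0 ≤ p ∧
    (p : ℝ) ≤ (2 - 1 / 250) * k * Real.logb 2 k := by
  have hx : Tendsto (fun k : ℕ => Real.logb 2 (k : ℝ)) atTop atTop :=
    (Real.tendsto_logb_atTop (by norm_num)).comp tendsto_natCast_atTop_atTop
  have ev : ∀ᶠ k : ℕ in atTop, ∃ L p : ℕ, L0 ≤ L ∧ p ≤ 2 ^ L ∧
      1 ≤ p ∧ (2 - 1 / 240 : ℝ) * L * k + P0 ≤ p ∧
      (p : ℝ) ≤ (2 - 1 / 250) * k * Real.logb 2 k := by
    filter_upwards [hx.eventually log_small_FinalB, hx.eventually (eventually_ge_atTop (2 : ℝ)),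
      hx.eventually (eventually_ge_atTop (L0 : ℝ)), eventually_ge_atTop (P0 + 2)]
      with k h1 h2 h3 h4
    have hk : (P0 : ℝ) + 2 ≤ k := by exact_mod_cast h4
    have hP0 : (0 : ℝ) ≤ P0 := Nat.cast_nonneg _
    have hk0 : (0 : ℝ) < k := by linarith
    set x := Real.logb 2 (k : ℝ) with hxdef
    have hx0 : (0 : ℝ) < x := by linarith
    set y := Real.logb 2 x with hydef
    have hy : 0 ≤ y := Real.logb_nonneg (by norm_num) (by linarith)
    have hkx : (0 : ℝ) < k * x := by positivity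
    have hlog : Real.logb 2 (2 * (k * x)) = 1 + x + y := by
      rw [Real.logb_mul (by norm_num) (by positivity), Real.logb_mul hk0.ne' hx0.ne',
        Real.logb_self_eq_one (by norm_num)]
      ring
    have hp1 : ((⌊(2 - 1 / 250) * k * x⌋₊ : ℕ) : ℝ) ≤ (2 - 1 / 250) * k * x :=
      Nat.floor_le (by nlinarith)
    have hp2 : (2 - 1 / 250) * k * x < ((⌊(2 - 1 / 250) * k * x⌋₊ : ℕ) : ℝ) + 1 :=
      Nat.lt_floor_add_one _
    have hL1 : Real.logb 2 (2 * (k * x)) ≤ ((⌈Real.logb 2 (2 * (k * x))⌉₊ : ℕ) : ℝ) :=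
      Nat.le_ceil _
    have hL2 : ((⌈Real.logb 2 (2 * (k * x))⌉₊ : ℕ) : ℝ) < Real.logb 2 (2 * (k * x)) + 1 :=
      Nat.ceil_lt_add_one (by rw [hlog]; linarith)
    generalize ⌊(2 - 1 / 250) * (k : ℝ) * x⌋₊ = p at hp1 hp2 ⊢
    generalize ⌈Real.logb 2 (2 * (k * x))⌉₊ = L at hL1 hL2 ⊢
    refine ⟨L, p, ?_, ?_, ?_, ?_, hp1⟩
    · have : (L0 : ℝ) ≤ L := by
        rw [hlog] at hL1
        linarith
      exact_mod_cast this
    · have h5 : 2 * (k * x) ≤ (2 : ℝ) ^ (L : ℝ) :=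
        (Real.logb_le_iff_le_rpow (by norm_num) (by positivity)).1 hL1
      rw [Real.rpow_natCast] at h5
      have : (p : ℝ) ≤ 2 ^ L := by
        refine hp1.trans (le_trans ?_ h5)
        nlinarith
      exact_mod_cast this
    · have h5 : (1 : ℝ) * 2 ≤ k * x := by
        apply mul_le_mul _ h2 (by norm_num) hk0.le
        linarith
      have : (0 : ℝ) < p := by nlinarith
      exact_mod_cast this
    · rw [hlog] at hL2
      have e1 : (2 - 1 / 240 : ℝ) * L * k ≤ (2 - 1 / 240 : ℝ) * (1 + x + y + 1) * k := by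
        gcongr
      have e2 : (2 * (2 + y) + 1) * k ≤ x / 496000 * k :=
        mul_le_mul_of_nonneg_right h1 hk0.le
      have e3 : 0 ≤ y * k := by positivity
      nlinarith
  exact eventually_atTop.1 ev

/-- The upper bound. -/
theorem upper : ∃ K : ℕ, ∀ k ≥ K, ∀ n : ℕ,
    (exPrime n k : ℝ) ≤ n + (2 - 1 / 250) * k * Real.logb 2 k := by
  obtain ⟨L0, P0, hiter⟩ := CP52.iter
  obtain ⟨K, hK⟩ := arith_FinalB L0 P0
  refine ⟨K, fun k hk n => ?_⟩
  obtain ⟨L, p, hL, hpL, hp1, hLp, hp⟩ := hK k hk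
  have h : exPrime n k ≤ n + p := by
    refine exPrime_le fun G hG => ?_
    by_contra hcon
    push Not at hcon
    obtain ⟨D, _, M, hD, hM⟩ := graph_mg G
    obtain ⟨D', _, G', hD', hG'⟩ := kernel M p hp1 (by
      rw [Fintype.card_fin, hD]
      omega)
    exact hG (hM k (hG' k (hiter L hL p hpL D' _ G' hD' k hLp)))
  have h' : (exPrime n k : ℝ) ≤ n + p := by exact_mod_cast h
  linarith

end Pool.Agent.CP52
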