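import Pool.Agent.CP51.Walks
import Pool.Agent.CP51.Delete
import Pool.Agent.CP51.Contact

/-!
# The number of closed walks which meet a given one
-/

namespace Pool.Agent.CP52

open Pool.Agent.CP51

variable {D : Type}

/-- The darts at the vertices of a closed walk. -/
private lemma card_on_MeetAll (G : Cub D) [Fintype D] {l : ℕ} (A : G.H l) :
    (open Classical in (Finset.univ.filter fun d => A.On d).card) ≤ 3 * A.len := by
  classical
  have h : (Finset.univ.filter fun d => A.On d) ⊆
      (Finset.univ : Finset (ZMod (A.n.1 + 1))).biUnion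
        (fun i => {A.c i, G.σ (A.c i), G.σ (G.σ (A.c i))}) := by
    intro d hd
    simp only [Finset.mem_filter, Finset.mem_univ, true_and] at hd
    obtain ⟨i, hi⟩ := hd
    rw [Finset.mem_biUnion]
    refine ⟨(i : ZMod (A.n.1 + 1)), Finset.mem_univ _, ?_⟩
    simpa [Cub.Sv, Cub.H.sq] using hi
  refine (Finset.card_le_card h).trans (Finset.card_biUnion_le.trans ?_)
  calc ∑ i : ZMod (A.n.1 + 1), ({A.c i, G.σ (A.c i), G.σ (G.σ (A.c i))} : Finset D).card
      ≤ ∑ _i : ZMod (A.n.1 + 1), 3 := Finset.sum_le_sum fun i _ => Finset.card_le_three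
    _ = 3 * A.len := by
      rw [Finset.sum_const, Finset.card_univ, ZMod.card, smul_eq_mul, mul_comm]; rfl

/-- The number of closed walks with a given first dart. -/
private lemma first_MeetAll (G : Cub D) [Fintype D] {g h0 l : ℕ} (hG : G.Girth g)
    (hh : 2 * h0 ≤ g) (h1 : 1 ≤ h0) (hl : 2 * h0 ≤ l) (d : D) :
    (open Classical in (Finset.univ.filter fun B : G.H l => B.sq 0 = d).card) ≤
      l * 2 ^ (l - h0) := by
  classical
  set S := Finset.univ.filter fun B : G.H l => B.sq 0 = d with hS
  let bits : G.H l → Fin h0 → Bool := fun B i =>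
    decide (B.sq ((i.1 : ℤ) + 1) = G.σ (G.τ (B.sq (i.1 : ℤ))))
  have hfib : ∀ b : Fin h0 → Bool, (S.filter fun B => bits B = b).card ≤
      l * 2 ^ (l - 2 * h0) := by
    intro b
    rcases (S.filter fun B => bits B = b).eq_empty_or_nonempty with he | ⟨C, hC⟩
    · rw [he, Finset.card_empty]
      exact Nat.zero_le _
    · rw [Finset.mem_filter, hS, Finset.mem_filter] at hC
      obtain ⟨⟨-, hC0⟩, hCb⟩ := hC
      refine le_trans (Finset.card_le_card ?_) (window_count G hG hh h1 l (fun i => C.sq (i : ℤ)))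
      intro B hB
      rw [Finset.mem_filter, hS, Finset.mem_filter] at hB
      obtain ⟨⟨-, hB0⟩, hBb⟩ := hB
      rw [Finset.mem_filter]
      refine ⟨Finset.mem_univ _, ?_⟩
      intro i
      induction i with
      | zero =>
        intro _
        rw [Nat.cast_zero, hB0, hC0]
      | succ i ih =>
        intro hi
        have h2 := ih (by omega)
        change B.sq (i : ℤ) = C.sq (i : ℤ) at h2
        change B.sq ((i + 1 : ℕ) : ℤ) = C.sq ((i + 1 : ℕ) : ℤ)
        have h3 := congrFun (hBb.trans hCb.symm) ⟨i, by omega⟩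
        simp only [bits, decide_eq_decide] at h3
        have h4 := Del.sq_fol B (i : ℤ)
        have h5 := Del.sq_fol C (i : ℤ)
        rw [← h2] at h3 h5
        rw [Nat.cast_add, Nat.cast_one]
        by_cases h6 : B.sq ((i : ℤ) + 1) = G.σ (G.τ (B.sq (i : ℤ)))
        · rw [h6, h3.1 h6]
        · have h7 : ¬ C.sq ((i : ℤ) + 1) = G.σ (G.τ (B.sq (i : ℤ))) := fun h => h6 (h3.2 h)
          rw [h4.resolve_left h6, h5.resolve_left h7]
  calc S.card = ∑ b : Fin h0 → Bool, (S.filter fun B => bits B = b).card :=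
        Finset.card_eq_sum_card_fiberwise (fun B _ => Finset.mem_coe.2 (Finset.mem_univ _))
    _ ≤ ∑ _b : Fin h0 → Bool, l * 2 ^ (l - 2 * h0) := Finset.sum_le_sum fun b _ => hfib b
    _ = 2 ^ h0 * (l * 2 ^ (l - 2 * h0)) := by simp
    _ = l * (2 ^ h0 * 2 ^ (l - 2 * h0)) := by ring
    _ = l * 2 ^ (l - h0) := by
      rw [← pow_add]
      congr 2
      omega

/-- The number of closed walks with a given dart at a given time. -/
private lemma at_MeetAll (G : Cub D) [Fintype D] {g h0 l : ℕ} (hG : G.Girth g)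
    (hh : 2 * h0 ≤ g) (h1 : 1 ≤ h0) (hl : 2 * h0 ≤ l) (d : D) (j : ℕ) :
    (open Classical in (Finset.univ.filter fun B : G.H l => B.sq (j : ℤ) = d).card) ≤
      l * 2 ^ (l - h0) := by
  classical
  induction j with
  | zero =>
    have h2 := first_MeetAll G hG hh h1 hl d
    simpa using h2
  | succ j ih =>
    refine le_trans (Finset.card_le_card_of_injOn (fun B : G.H l => B.rot) ?_ ?_) ih
    · intro B hB
      rw [Finset.mem_coe, Finset.mem_filter] at hB ⊢
      refine ⟨Finset.mem_univ _, ?_⟩
      rw [ContactAux.rot_sq]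
      have h2 := hB.2
      rw [Nat.cast_add, Nat.cast_one] at h2
      exact h2
    · intro B _ B' _ h
      exact ContactAux.rot_inj h

/-- Few closed walks meet a given one. -/
theorem meet_all (G : Cub D) [Fintype D] {g h0 l : ℕ} (hG : G.Girth g) (hh : 2 * h0 ≤ g)
    (h1 : 1 ≤ h0) (hl : 2 * h0 ≤ l) (A : G.H l) :
    (open Classical in (Finset.univ.filter fun B : G.H l => ¬ A.Dj B).card) ≤
      3 * l ^ 3 * 2 ^ (l - h0) := by
  classical
  set X : Finset D := Finset.univ.filter fun d => A.On d with hX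
  have hXc : X.card ≤ 3 * l := by
    refine (card_on_MeetAll G A).trans ?_
    have h2 := A.n.2
    unfold Cub.H.len
    omega
  have hsub : (Finset.univ.filter fun B : G.H l => ¬ A.Dj B) ⊆
      (Finset.range l ×ˢ X).biUnion
        (fun p => Finset.univ.filter fun B : G.H l => B.sq (p.1 : ℤ) = p.2) := by
    intro B hB
    rw [Finset.mem_filter] at hB
    have hB2 := hB.2
    unfold Cub.H.Dj at hB2
    push Not at hB2
    obtain ⟨d, hA, i, hi⟩ := hB2
    obtain ⟨a, ha, h2, -⟩ := Del.sq_mod B i
    rw [Finset.mem_biUnion]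
    refine ⟨(a, B.sq (a : ℤ)), ?_, ?_⟩
    · rw [Finset.mem_product]
      refine ⟨?_, ?_⟩
      · have h3 := B.n.2
        rw [Finset.mem_range] at ha ⊢
        unfold Cub.H.len at ha
        change a < l
        omega
      · rw [hX, Finset.mem_filter]
        refine ⟨Finset.mem_univ _, ?_⟩
        change A.On (B.sq (a : ℤ))
        rw [← h2]
        exact Del.On_sv A hA (Del.svSymm G hi)
    · rw [Finset.mem_filter]
      exact ⟨Finset.mem_univ _, rfl⟩
  calc (Finset.univ.filter fun B : G.H l => ¬ A.Dj B).card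
      ≤ ((Finset.range l ×ˢ X).biUnion
        (fun p => Finset.univ.filter fun B : G.H l => B.sq (p.1 : ℤ) = p.2)).card :=
        Finset.card_le_card hsub
    _ ≤ ∑ p ∈ Finset.range l ×ˢ X,
        (Finset.univ.filter fun B : G.H l => B.sq (p.1 : ℤ) = p.2).card :=
        Finset.card_biUnion_le
    _ ≤ ∑ _p ∈ Finset.range l ×ˢ X, l * 2 ^ (l - h0) :=
        Finset.sum_le_sum fun p _ => at_MeetAll G hG hh h1 hl p.2 p.1
    _ = l * X.card * (l * 2 ^ (l - h0)) := by
        rw [Finset.sum_const, Finset.card_product, Finset.card_range, smul_eq_mul]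
    _ ≤ l * (3 * l) * (l * 2 ^ (l - h0)) := by gcongr
    _ = 3 * l ^ 3 * 2 ^ (l - h0) := by ring

end Pool.Agent.CP52
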