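import Pool.Agent.CP51.Num

/-!
# The numerical facts about the parameters, sharper version
-/

namespace Pool.Agent.CP52

open Filter Pool.Agent.CP51

/-- All numerical facts which are used. -/
structure Num (k : ℕ) : Prop where
  big : 10 ^ 8 ≤ k
  n0 : (24 : ℝ) ≤ 2 ^ ((1 / 37000 : ℝ) * k)
  n1 : (64 : ℝ) * k ≤ 2 ^ ((1 / 100000 : ℝ) * k)
  n2 : (20000000 : ℝ) * (k : ℝ) ^ 2 ≤ 2 ^ ((1 / 10000 : ℝ) * k)
  n3 : (10000000 : ℝ) * (k : ℝ) ^ 3 ≤ 2 ^ ((1 / 2500 : ℝ) * k)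
  n4 : (1000000 : ℝ) * (k : ℝ) ≤ 2 ^ ((1 / 1000 : ℝ) * k)
  n5 : (10000000000 : ℝ) * (k : ℝ) ^ 2 ≤ 2 ^ k

theorem ev_num : ∃ K : ℕ, ∀ k ≥ K, Num k := by
  have h : ∀ᶠ k : ℕ in atTop, Num k := by
    filter_upwards [eventually_ge_atTop (10 ^ 8), ev_poly 0 24 (1 / 37000) (by norm_num)
      (by norm_num), ev_poly 1 64 (1 / 100000) (by norm_num) (by norm_num),
      ev_poly 2 20000000 (1 / 10000) (by norm_num) (by norm_num),
      ev_poly 3 10000000 (1 / 2500) (by norm_num) (by norm_num),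
      ev_poly 1 1000000 (1 / 1000) (by norm_num) (by norm_num),
      ev_poly 2 10000000000 1 (by norm_num) (by norm_num)] with k h1 h2 h3 h4 h5 h6 h7
    refine ⟨h1, ?_, ?_, h4, h5, ?_, ?_⟩
    · simpa using h2
    · simpa using h3
    · simpa using h6
    · rw [one_mul, Real.rpow_natCast] at h7; exact h7
  exact eventually_atTop.1 h

lemma div_le (k n : ℕ) : ((k / n : ℕ) : ℝ) ≤ k / n := Nat.cast_div_le

lemma le_div (k n : ℕ) (hn : 0 < n) : (k : ℝ) / n - 1 ≤ ((k / n : ℕ) : ℝ) := by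
  have h : k < n * (k / n + 1) := by
    have := Nat.lt_mul_div_succ k hn
    exact this
  have h' : (k : ℝ) < n * ((k / n : ℕ) + 1) := by exact_mod_cast h
  have hn' : (0 : ℝ) < n := by exact_mod_cast hn
  rw [sub_le_iff_le_add, div_le_iff₀ hn']
  linarith

section facts

variable {k : ℕ}

/-- (F1) -/
lemma fact1 (h : Num k) {β : ℝ} (hβ : 1 - 1 / 4500 ≤ β) :
    (12 : ℝ) * 2 ^ k ≤ 2 ^ (((k + k / 4000 : ℕ) : ℝ) * β) := by
  have hb : (10 : ℝ) ^ 8 ≤ k := by exact_mod_cast h.big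
  have h1 := div_le k 4000
  have h2 := le_div k 4000 (by norm_num)
  push_cast at h1 h2
  have h3 : (k : ℝ) + (1 / 37000 : ℝ) * k - 1 ≤ ((k + k / 4000 : ℕ) : ℝ) * β := by
    have h4 : (0 : ℝ) ≤ ((k + k / 4000 : ℕ) : ℝ) := Nat.cast_nonneg _
    have h5 : ((k + k / 4000 : ℕ) : ℝ) * (1 - 1 / 4500) ≤ ((k + k / 4000 : ℕ) : ℝ) * β :=
      mul_le_mul_of_nonneg_left hβ h4
    refine le_trans ?_ h5
    push_cast
    linarith
  have h6 := h.n0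
  calc (12 : ℝ) * 2 ^ k = 24 * 2 ^ (k : ℝ) / 2 := by rw [Real.rpow_natCast]; ring
    _ ≤ 2 ^ ((1 / 37000 : ℝ) * k) * 2 ^ (k : ℝ) / 2 := by gcongr
    _ = 2 ^ ((k : ℝ) + (1 / 37000 : ℝ) * k - 1) := by
      rw [Real.rpow_sub (by norm_num), Real.rpow_add (by norm_num), Real.rpow_one]; ring
    _ ≤ _ := two_rpow_le h3

/-- (F2) -/
lemma fact2 (h : Num k) {β : ℝ} (hβ : 1 - 1 / 4500 ≤ β) :
    (2 : ℝ) ^ (2 * k - k / 420 : ℕ) * ((k + k / 4000 : ℕ) : ℝ) *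
      2 ^ ((k + k / 4000) - (k - k / 460) : ℕ) * 2 ≤
      (2 ^ (((k + k / 4000 : ℕ) : ℝ) * β)) ^ 2 := by
  have hb : (10 : ℝ) ^ 8 ≤ k := by exact_mod_cast h.big
  have h1 := div_le k 4000
  have h2 := le_div k 4000 (by norm_num)
  have hq := div_le k 460
  have hu := le_div k 420 (by norm_num)
  push_cast at h1 h2 hq hu
  have h3 : 2 * (k : ℝ) - ((k / 420 : ℕ) : ℝ) + ((k / 4000 : ℕ) : ℝ) + ((k / 460 : ℕ) : ℝ) +
      (1 / 100000 : ℝ) * k - 3 ≤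
      ((k + k / 4000 : ℕ) : ℝ) * β + ((k + k / 4000 : ℕ) : ℝ) * β := by
    have h4 : (0 : ℝ) ≤ ((k + k / 4000 : ℕ) : ℝ) := Nat.cast_nonneg _
    have h5 : ((k + k / 4000 : ℕ) : ℝ) * (1 - 1 / 4500) ≤ ((k + k / 4000 : ℕ) : ℝ) * β :=
      mul_le_mul_of_nonneg_left hβ h4
    have h6 : 2 * (k : ℝ) - ((k / 420 : ℕ) : ℝ) + ((k / 4000 : ℕ) : ℝ) + ((k / 460 : ℕ) : ℝ) +
      (1 / 100000 : ℝ) * k - 3 ≤
      2 * (((k + k / 4000 : ℕ) : ℝ) * (1 - 1 / 4500)) := by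
      push_cast
      linarith
    linarith
  have h6 := h.n1
  have h7 : ((k + k / 4000 : ℕ) : ℝ) ≤ 2 * k := by push_cast; linarith
  have h8 : (2 : ℝ) ^ (2 * k - k / 420 : ℕ) * 2 ^ ((k + k / 4000) - (k - k / 460) : ℕ) =
      2 ^ (2 * (k : ℝ) - ((k / 420 : ℕ) : ℝ) + ((k / 4000 : ℕ) : ℝ) + ((k / 460 : ℕ) : ℝ)) := by
    rw [← pow_add, ← Real.rpow_natCast]
    congr 1
    have : 2 * k - k / 420 + ((k + k / 4000) - (k - k / 460)) + k / 420 =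
      2 * k + k / 4000 + k / 460 := by omega
    have h9 := congrArg (Nat.cast (R := ℝ)) this
    push_cast at h9 ⊢
    linarith
  calc (2 : ℝ) ^ (2 * k - k / 420 : ℕ) * ((k + k / 4000 : ℕ) : ℝ) *
      2 ^ ((k + k / 4000) - (k - k / 460) : ℕ) * 2
      = 2 ^ (2 * (k : ℝ) - ((k / 420 : ℕ) : ℝ) + ((k / 4000 : ℕ) : ℝ) + ((k / 460 : ℕ) : ℝ)) *
        ((k + k / 4000 : ℕ) : ℝ) * 2 := by
        rw [← h8]; ring
    _ ≤ 2 ^ (2 * (k : ℝ) - ((k / 420 : ℕ) : ℝ) + ((k / 4000 : ℕ) : ℝ) + ((k / 460 : ℕ) : ℝ)) *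
        (2 * k) * 2 := by gcongr
    _ = 2 ^ (2 * (k : ℝ) - ((k / 420 : ℕ) : ℝ) + ((k / 4000 : ℕ) : ℝ) + ((k / 460 : ℕ) : ℝ)) *
        (64 * k) / 16 := by ring
    _ ≤ 2 ^ (2 * (k : ℝ) - ((k / 420 : ℕ) : ℝ) + ((k / 4000 : ℕ) : ℝ) + ((k / 460 : ℕ) : ℝ)) *
        2 ^ ((1 / 100000 : ℝ) * k) / 16 := by
        gcongr
    _ ≤ 2 ^ (2 * (k : ℝ) - ((k / 420 : ℕ) : ℝ) + ((k / 4000 : ℕ) : ℝ) + ((k / 460 : ℕ) : ℝ)) *
        2 ^ ((1 / 100000 : ℝ) * k) / 8 := by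
        gcongr
        norm_num
    _ = 2 ^ (2 * (k : ℝ) - ((k / 420 : ℕ) : ℝ) + ((k / 4000 : ℕ) : ℝ) + ((k / 460 : ℕ) : ℝ) +
        (1 / 100000 : ℝ) * k - 3) := by
      rw [Real.rpow_sub (by norm_num), Real.rpow_add (by norm_num) _
        ((1 / 100000 : ℝ) * k)]
      norm_num
    _ ≤ 2 ^ (((k + k / 4000 : ℕ) : ℝ) * β + ((k + k / 4000 : ℕ) : ℝ) * β) :=
      two_rpow_le h3
    _ = _ := by rw [Real.rpow_add (by norm_num)]; ring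

lemma sqrt_le (h : Num k) :
    √(1 + (2 ^ 13 - 1) * ((2 * (k + k / 4000) : ℕ) : ℝ)) ≤ 40000 * k := by
  have hb : (10 : ℝ) ^ 8 ≤ k := by exact_mod_cast h.big
  have h1 := div_le k 4000
  push_cast at h1
  have h5 : ((2 * (k + k / 4000) : ℕ) : ℝ) ≤ 4 * k := by push_cast; linarith
  have h0 : (0 : ℝ) ≤ ((2 * (k + k / 4000) : ℕ) : ℝ) := Nat.cast_nonneg _
  calc √(1 + (2 ^ 13 - 1) * ((2 * (k + k / 4000) : ℕ) : ℝ))
      ≤ √((1 + (2 ^ 13 - 1) * ((2 * (k + k / 4000) : ℕ) : ℝ)) ^ 2) :=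
        Real.sqrt_le_sqrt (by nlinarith)
    _ = 1 + (2 ^ 13 - 1) * ((2 * (k + k / 4000) : ℕ) : ℝ) :=
        Real.sqrt_sq (by nlinarith)
    _ ≤ 40000 * k := by nlinarith

/-- (F3) -/
lemma fact3 (h : Num k) {N : ℕ} (hN : N < 2 ^ (k + 1)) (hN0 : 0 < N) :
    Real.logb 2 (((2 * (k + k / 4000) *
      2 ^ (2 * (k + k / 4000) - 2 * (k - k / 460)) : ℕ) : ℝ) *
      ((3 * N : ℕ) : ℝ) * 2 ^ (k - k / 460)) -
      Real.logb 2 ((2 : ℝ) ^ (2 * k - k / 420 : ℕ) /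
        (10 * √(1 + (2 ^ 13 - 1) * ((2 * (k + k / 4000) : ℕ) : ℝ)))) ≤ 0.0052 * k := by
  have hb : (10 : ℝ) ^ 8 ≤ k := by exact_mod_cast h.big
  have hb' := h.big
  have h1 := div_le k 4000
  have h2 := div_le k 460
  have h3 := div_le k 420
  push_cast at h1 h2 h3
  have h4 := h.n2
  have hNr : (N : ℝ) ≤ 2 ^ (k + 1) := by exact_mod_cast hN.le
  have hN0r : (0 : ℝ) < N := by exact_mod_cast hN0
  have hk0 : (0 : ℝ) < k := by linarith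
  have hsq := sqrt_le h
  have hsq0 : 0 < √(1 + (2 ^ 13 - 1) * ((2 * (k + k / 4000) : ℕ) : ℝ)) := by
    apply Real.sqrt_pos.2
    have : (0 : ℝ) ≤ ((2 * (k + k / 4000) : ℕ) : ℝ) := Nat.cast_nonneg _
    nlinarith
  set sq := √(1 + (2 ^ 13 - 1) * ((2 * (k + k / 4000) : ℕ) : ℝ)) with hsqd
  have hMw : (0 : ℝ) < ((2 * (k + k / 4000) *
      2 ^ (2 * (k + k / 4000) - 2 * (k - k / 460)) : ℕ) : ℝ) := by
    have : 0 < 2 * (k + k / 4000) * 2 ^ (2 * (k + k / 4000) - 2 * (k - k / 460)) := by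
      have : 0 < k := by omega
      positivity
    exact_mod_cast this
  have h7 : (0 : ℝ) < ((3 * N : ℕ) : ℝ) := by push_cast; linarith
  rw [← Real.logb_div (by positivity) (by positivity)]
  have hle : ((2 * (k + k / 4000) *
      2 ^ (2 * (k + k / 4000) - 2 * (k - k / 460)) : ℕ) : ℝ) *
      ((3 * N : ℕ) : ℝ) * 2 ^ (k - k / 460) / ((2 : ℝ) ^ (2 * k - k / 420 : ℕ) / (10 * sq)) ≤
      2 ^ ((((2 * (k / 4000) + k / 460 + k / 420) : ℕ) : ℝ) + (1 / 10000 : ℝ) * k) := by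
    have e1 : ((2 * (k + k / 4000) * 2 ^ (2 * (k + k / 4000) - 2 * (k - k / 460)) : ℕ) : ℝ)
        = (2 * ((k : ℝ) + ((k / 4000 : ℕ) : ℝ))) * 2 ^ (2 * (k / 4000) + 2 * (k / 460)) := by
      have : 2 * (k + k / 4000) - 2 * (k - k / 460) = 2 * (k / 4000) + 2 * (k / 460) := by
        omega
      rw [this]
      push_cast
      ring
    have e3 : (2 : ℝ) ^ (2 * (k / 4000) + 2 * (k / 460)) * 2 ^ (k + 1) * 2 ^ (k - k / 460) =
        2 * (2 ^ (2 * k - k / 420 : ℕ) * 2 ^ (2 * (k / 4000) + k / 460 + k / 420)) := by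
      rw [← pow_add, ← pow_add, ← pow_add, ← pow_succ']
      congr 1
      omega
    rw [e1, show ((3 * N : ℕ) : ℝ) = 3 * N by push_cast; ring, div_le_iff₀ (by positivity),
      ← mul_div_assoc, le_div_iff₀ (by positivity)]
    have h5 : (2 * ((k : ℝ) + ((k / 4000 : ℕ) : ℝ))) ≤ 4 * k := by linarith
    calc (2 * ((k : ℝ) + ((k / 4000 : ℕ) : ℝ))) * 2 ^ (2 * (k / 4000) + 2 * (k / 460)) *
        (3 * N) * 2 ^ (k - k / 460) * (10 * sq)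
        ≤ (4 * k) * 2 ^ (2 * (k / 4000) + 2 * (k / 460)) *
        (3 * 2 ^ (k + 1)) * 2 ^ (k - k / 460) * (10 * (40000 * k)) := by gcongr
      _ = 4800000 * (k : ℝ) ^ 2 *
        (2 ^ (2 * (k / 4000) + 2 * (k / 460)) * 2 ^ (k + 1) * 2 ^ (k - k / 460)) := by ring
      _ = 9600000 * (k : ℝ) ^ 2 * 2 ^ (2 * (k / 4000) + k / 460 + k / 420) *
        2 ^ (2 * k - k / 420 : ℕ) := by rw [e3]; ring
      _ ≤ 20000000 * (k : ℝ) ^ 2 * 2 ^ (2 * (k / 4000) + k / 460 + k / 420) *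
        2 ^ (2 * k - k / 420 : ℕ) := by
        gcongr
        norm_num
      _ ≤ 2 ^ ((1 / 10000 : ℝ) * k) * 2 ^ (2 * (k / 4000) + k / 460 + k / 420) *
        2 ^ (2 * k - k / 420 : ℕ) := by gcongr
      _ = _ := by
        rw [Real.rpow_add (by norm_num), Real.rpow_natCast]; ring
  have h8 := Real.logb_le_logb_of_le (b := 2) (by norm_num) (by positivity) hle
  rw [Real.logb_rpow (by norm_num) (by norm_num)] at h8
  refine h8.trans ?_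
  push_cast
  linarith

/-- (F4) -/
lemma fact4 (h : Num k) {N : ℕ} (hN : N < 2 ^ (k + 1)) :
    (2 : ℝ)⁻¹ ^ (k + k / 130 : ℕ) *
      ((6 * (2 * (k + k / 4000)) ^ 3 * 2 ^ (2 * (k + k / 4000) -
        (k - 2 * (k / 460) - k / 4000 - 1) - (k - k / 460)) : ℕ) : ℝ) *
      (1000 * ((3 * N : ℕ) : ℝ)) ≤ 1 := by
  have hb : (10 : ℝ) ^ 8 ≤ k := by exact_mod_cast h.big
  have hb' := h.big
  have h1 := div_le k 4000
  have h2 := div_le k 460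
  have h3 := le_div k 130 (by norm_num)
  push_cast at h1 h2 h3
  have h4 := h.n3
  have hNr : (N : ℝ) ≤ 2 ^ (k + 1) := by exact_mod_cast hN.le
  have hk0 : (0 : ℝ) < k := by linarith
  have e1 : 2 * (k + k / 4000) -
        (k - 2 * (k / 460) - k / 4000 - 1) - (k - k / 460) =
      3 * (k / 4000) + 3 * (k / 460) + 1 := by omega
  rw [e1]
  have h5 : (2 * ((k : ℝ) + ((k / 4000 : ℕ) : ℝ))) ≤ 4 * k := by linarith
  push_cast
  have e2 : (2 : ℝ)⁻¹ ^ (k + k / 130 : ℕ) * 2 ^ (k + k / 130 : ℕ) = 1 := by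
    rw [← mul_pow]; norm_num
  have e3 : (1 / 2500 : ℝ) * k + ((3 * (k / 4000) + 3 * (k / 460) : ℕ) : ℝ) ≤
      ((k / 130 : ℕ) : ℝ) := by
    push_cast
    linarith
  have e4 := two_rpow_le e3
  rw [Real.rpow_add (by norm_num), Real.rpow_natCast, Real.rpow_natCast] at e4
  calc (2 : ℝ)⁻¹ ^ (k + k / 130 : ℕ) *
      (6 * (2 * ((k : ℝ) + ((k / 4000 : ℕ) : ℝ))) ^ 3 *
        2 ^ (3 * (k / 4000) + 3 * (k / 460) + 1)) * (1000 * (3 * N))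
      ≤ (2 : ℝ)⁻¹ ^ (k + k / 130 : ℕ) *
      (6 * (4 * k) ^ 3 *
        2 ^ (3 * (k / 4000) + 3 * (k / 460) + 1)) * (1000 * (3 * 2 ^ (k + 1))) := by gcongr
    _ = (2 : ℝ)⁻¹ ^ (k + k / 130 : ℕ) * ((4608000 * (k : ℝ) ^ 3) *
        2 ^ (3 * (k / 4000) + 3 * (k / 460)) * 2 ^ k) := by
        rw [pow_succ 2 (3 * (k / 4000) + 3 * (k / 460)), pow_succ 2 k]; ring
    _ ≤ (2 : ℝ)⁻¹ ^ (k + k / 130 : ℕ) * ((10000000 * (k : ℝ) ^ 3) *
        2 ^ (3 * (k / 4000) + 3 * (k / 460)) * 2 ^ k) := by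
        gcongr
        norm_num
    _ ≤ (2 : ℝ)⁻¹ ^ (k + k / 130 : ℕ) * (2 ^ ((1 / 2500 : ℝ) * k) *
        2 ^ (3 * (k / 4000) + 3 * (k / 460)) * 2 ^ k) := by gcongr
    _ ≤ (2 : ℝ)⁻¹ ^ (k + k / 130 : ℕ) * (2 ^ (k / 130) * 2 ^ k) := by gcongr
    _ = (2 : ℝ)⁻¹ ^ (k + k / 130 : ℕ) * 2 ^ (k + k / 130 : ℕ) := by
      rw [← pow_add]; congr 2; omega
    _ = 1 := e2

/-- (F5) -/
lemma fact5 (h : Num k) :
    ((3 * (2 * (k + k / 4000)) ^ 3 * 2 ^ (2 * (k + k / 4000) - (k - k / 460)) : ℕ) : ℝ) *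
      (2 : ℝ)⁻¹ ^ (k + k / 130 : ℕ) ≤ 1 / 100 := by
  have hb : (10 : ℝ) ^ 8 ≤ k := by exact_mod_cast h.big
  have hb' := h.big
  have h1 := div_le k 4000
  have h2 := div_le k 460
  have h3 := le_div k 130 (by norm_num)
  push_cast at h1 h2 h3
  have h4 := h.n3
  have hk0 : (0 : ℝ) < k := by linarith
  have e1 : 2 * (k + k / 4000) - (k - k / 460) = k + (2 * (k / 4000) + k / 460) := by omega
  rw [e1]
  have h5 : (2 * ((k : ℝ) + ((k / 4000 : ℕ) : ℝ))) ≤ 4 * k := by linarith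
  push_cast
  have e2 : (2 : ℝ) ^ (k + k / 130 : ℕ) * (2 : ℝ)⁻¹ ^ (k + k / 130 : ℕ) = 1 := by
    rw [← mul_pow]; norm_num
  have e3 : (1 / 2500 : ℝ) * k + ((2 * (k / 4000) + k / 460 : ℕ) : ℝ) ≤
      ((k / 130 : ℕ) : ℝ) := by
    push_cast
    linarith
  have e4 := two_rpow_le e3
  rw [Real.rpow_add (by norm_num), Real.rpow_natCast, Real.rpow_natCast] at e4
  calc (3 * (2 * ((k : ℝ) + ((k / 4000 : ℕ) : ℝ))) ^ 3 *
        2 ^ (k + (2 * (k / 4000) + k / 460))) * (2 : ℝ)⁻¹ ^ (k + k / 130 : ℕ)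
      ≤ (3 * (4 * k) ^ 3 *
        2 ^ (k + (2 * (k / 4000) + k / 460))) * (2 : ℝ)⁻¹ ^ (k + k / 130 : ℕ) := by gcongr
    _ = (192 * (k : ℝ) ^ 3 * 2 ^ (2 * (k / 4000) + k / 460)) * 2 ^ k *
        (2 : ℝ)⁻¹ ^ (k + k / 130 : ℕ) := by
        rw [pow_add 2 k]; ring
    _ ≤ ((10000000 * (k : ℝ) ^ 3 / 100) * 2 ^ (2 * (k / 4000) + k / 460)) * 2 ^ k *
        (2 : ℝ)⁻¹ ^ (k + k / 130 : ℕ) := by
        gcongr
        have : (0 : ℝ) < (k : ℝ) ^ 3 := by positivity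
        linarith
    _ ≤ ((2 ^ ((1 / 2500 : ℝ) * k) / 100) * 2 ^ (2 * (k / 4000) + k / 460)) * 2 ^ k *
        (2 : ℝ)⁻¹ ^ (k + k / 130 : ℕ) := by gcongr
    _ = (2 ^ ((1 / 2500 : ℝ) * k) * 2 ^ (2 * (k / 4000) + k / 460)) * 2 ^ k *
        (2 : ℝ)⁻¹ ^ (k + k / 130 : ℕ) / 100 := by ring
    _ ≤ 2 ^ (k / 130) * 2 ^ k * (2 : ℝ)⁻¹ ^ (k + k / 130 : ℕ) / 100 := by gcongr
    _ = (2 ^ (k + k / 130 : ℕ) * (2 : ℝ)⁻¹ ^ (k + k / 130 : ℕ)) / 100 := by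
      rw [pow_add 2 k]; ring
    _ = 1 / 100 := by rw [e2]

/-- (F6) -/
lemma fact6 (h : Num k) :
    (1 + (2 ^ 13 - 1) : ℝ) ^ (19 * k / 250 : ℕ) *
      (10 * √(1 + (2 ^ 13 - 1) * ((2 * (k + k / 4000) : ℕ) : ℝ))) ≤
      (2 : ℝ)⁻¹ ^ (k + k / 130 : ℕ) * 2 ^ (2 * k - k / 420 : ℕ) := by
  have hb : (10 : ℝ) ^ 8 ≤ k := by exact_mod_cast h.big
  have hb' := h.big
  have h1 := div_le k 420
  have h2 := div_le k 130
  have h3 := div_le (19 * k) 250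
  push_cast at h1 h2 h3
  have h4 := h.n4
  have hk0 : (0 : ℝ) < k := by linarith
  have hsq := sqrt_le h
  have e0 : (1 + (2 ^ 13 - 1) : ℝ) ^ (19 * k / 250 : ℕ) = 2 ^ (13 * (19 * k / 250) : ℕ) := by
    rw [show (1 + (2 ^ 13 - 1) : ℝ) = 2 ^ 13 by norm_num, ← pow_mul]
  have e1 : (2 : ℝ)⁻¹ ^ (k + k / 130 : ℕ) * 2 ^ (2 * k - k / 420 : ℕ) =
      2 ^ ((k - k / 420 - k / 130 : ℕ) : ℝ) := by
    have e2 : (2 : ℝ)⁻¹ ^ (k + k / 130 : ℕ) * 2 ^ (k + k / 130 : ℕ) = 1 := by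
      rw [← mul_pow]; norm_num
    have e3 : 2 * k - k / 420 = (k + k / 130) + (k - k / 420 - k / 130) := by omega
    rw [e3, pow_add (2 : ℝ) (k + k / 130), ← mul_assoc, e2, one_mul, Real.rpow_natCast]
  rw [e0, e1]
  have h8 : ((13 * (19 * k / 250) : ℕ) : ℝ) + (1 / 1000 : ℝ) * k ≤
      ((k - k / 420 - k / 130 : ℕ) : ℝ) := by
    rw [Nat.cast_sub (by omega), Nat.cast_sub (by omega)]
    push_cast
    linarith
  calc (2 : ℝ) ^ (13 * (19 * k / 250) : ℕ) *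
      (10 * √(1 + (2 ^ 13 - 1) * ((2 * (k + k / 4000) : ℕ) : ℝ)))
      ≤ 2 ^ (13 * (19 * k / 250) : ℕ) * (10 * (40000 * k)) := by gcongr
    _ ≤ 2 ^ (13 * (19 * k / 250) : ℕ) * 2 ^ ((1 / 1000 : ℝ) * k) := by
      gcongr
      linarith
    _ = 2 ^ (((13 * (19 * k / 250) : ℕ) : ℝ) + (1 / 1000 : ℝ) * k) := by
      rw [Real.rpow_add (by norm_num), Real.rpow_natCast]
    _ ≤ _ := two_rpow_le h8

/-- (F7) -/
lemma fact7 (h : Num k) {N m : ℕ} (hN : 2 ^ k ≤ N)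
    (hm : m = N / (18000 * (2 * (k + k / 4000))) + 1) (c1 κ3 : ℝ)
    (hc1 : c1 = ((2 * (k - k / 460) : ℕ) : ℝ) ^ 2 / ((3 * N : ℕ) : ℝ))
    (hκ3 : 0.3814 * c1 ≤ κ3) :
    ¬ (κ3 * (99 / 100) ≤ 2 * (2 * ((k / 4000 : ℕ) : ℝ) + ((k / 235 : ℕ) : ℝ)) *
      (1 / (((m : ℝ) - 1) * (1 + (2 ^ 13 - 1))) +
        100 / 99 * (1.76 * c1 / ((k - k / 460 : ℕ) : ℝ)) * Real.logb 2 (1 + (2 ^ 13 - 1)) +
        κ3 * (1 / ((m : ℝ) - 1) + 2 / (((19 * k / 250 : ℕ) : ℝ) + 1)))) := by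
  intro hc
  have hb : (10 : ℝ) ^ 8 ≤ k := by exact_mod_cast h.big
  have hb' := h.big
  have hNr : (2 : ℝ) ^ k ≤ N := by exact_mod_cast hN
  have h1 := div_le k 4000
  have h2 := div_le k 235
  have h3 := div_le k 460
  have h4 := le_div (19 * k) 250 (by norm_num)
  push_cast at h1 h2 h3 h4
  have h6 := h.n5
  have hK0 : (0 : ℝ) < k := by linarith
  have hN0 : (0 : ℝ) < N := by
    have : (0 : ℝ) < 2 ^ k := by positivity
    linarith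
  set K : ℝ := (k : ℝ) with hK
  set e : ℝ := ((k / 4000 : ℕ) : ℝ) with he
  set s : ℝ := ((k / 235 : ℕ) : ℝ) with hs
  have he0 : 0 ≤ e := Nat.cast_nonneg _
  have hs0 : 0 ≤ s := Nat.cast_nonneg _
  set w : ℝ := ((k - k / 460 : ℕ) : ℝ) with hw
  have hw1 : K * (459 / 460) ≤ w := by
    rw [hw, Nat.cast_sub (by omega)]
    linarith
  have hg : ((2 * (k - k / 460) : ℕ) : ℝ) = 2 * w := by rw [hw]; push_cast; ring
  rw [hg, show ((3 * N : ℕ) : ℝ) = 3 * N by push_cast; ring] at hc1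
  have hw0 : 0 < w := by linarith
  have hc0 : 0 < c1 := by rw [hc1]; positivity
  have hκ0 : 0 < κ3 := by linarith
  -- m - 1 is large
  have hm0 : (0 : ℝ) ≤ m := Nat.cast_nonneg _
  have e1 : (N : ℝ) < 18000 * (2 * (K + e)) * m := by
    have : N < 18000 * (2 * (k + k / 4000)) * m := by
      rw [hm]
      exact Nat.lt_mul_div_succ N (by omega)
    have := (Nat.cast_lt (α := ℝ)).2 this
    push_cast at this
    exact this
  have e2 : (N : ℝ) < 36009 * K * m := by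
    refine e1.trans_le (mul_le_mul_of_nonneg_right ?_ hm0)
    linarith
  have e3 : (99 / 100 : ℝ) * N ≤ 36009 * K * (m - 1) := by
    have : (36009 : ℝ) * K ≤ N / 100 := by nlinarith
    nlinarith
  have hm1 : 0 < (m : ℝ) - 1 := by
    by_contra hneg
    push Not at hneg
    have : 36009 * K * ((m : ℝ) - 1) ≤ 0 := mul_nonpos_of_nonneg_of_nonpos (by positivity) hneg
    linarith
  set M : ℝ := (m : ℝ) - 1 with hM
  have hMbig : 100 * K ≤ M := by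
    have e4 : 36009 * K * (100 * K) ≤ 36009 * K * M := by
      refine le_trans ?_ e3
      nlinarith
    exact le_of_mul_le_mul_left e4 (by positivity)
  set Δ : ℝ := 2 * e + s with hΔ
  have hΔ0 : 0 ≤ Δ := by positivity
  have hΔ1 : Δ ≤ K * (1 / 2000 + 1 / 235) := by linarith
  set k0 : ℝ := ((19 * k / 250 : ℕ) : ℝ) with hk0
  have hk01 : 19 * K / 250 ≤ k0 + 1 := by linarith
  have hk00 : 0 < k0 + 1 := by linarith
  have hlog : Real.logb 2 (1 + (2 ^ 13 - 1)) = 13 := by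
    rw [show (1 + (2 ^ 13 - 1) : ℝ) = 2 ^ 13 by norm_num, Real.logb_pow,
      Real.logb_self_eq_one (by norm_num)]
    norm_num
  have t1 : 2 * Δ * (1 / (M * (1 + (2 ^ 13 - 1)))) ≤ 0.0319 * c1 := by
    rw [mul_one_div, div_le_iff₀ (by positivity), hc1]
    have a1 : (2 * w) ^ 2 / (3 * N) = 4 * w ^ 2 / (3 * N) := by ring
    have a2 : K ^ 2 * (459 / 460) ^ 2 ≤ w ^ 2 := by
      rw [← mul_pow]
      exact pow_le_pow_left₀ (by positivity) hw1 2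
    have a3 : 0.0319 * ((2 * w) ^ 2 / (3 * N)) * (M * (1 + (2 ^ 13 - 1))) =
      0.0319 * 4 * 8192 / 3 * (w ^ 2 * M) / N := by ring
    rw [a3, le_div_iff₀ hN0]
    have a4 : K ^ 2 * (459 / 460) ^ 2 * M ≤ w ^ 2 * M :=
      mul_le_mul_of_nonneg_right a2 hm1.le
    have a5 : 2 * Δ * N ≤ 2 * (K * (1 / 2000 + 1 / 235)) * (100 / 99 * (36009 * K * M)) := by
      have : (N : ℝ) ≤ 100 / 99 * (36009 * K * M) := by linarith
      gcongr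
    have a6 : 0 < K ^ 2 * M := by positivity
    nlinarith
  have t2 : 2 * Δ * (100 / 99 * (1.76 * c1 / w) * 13) ≤ 0.2204 * c1 := by
    have a1 : 2 * Δ * (100 / 99 * (1.76 * c1 / w) * 13) =
      2 * 100 / 99 * 1.76 * 13 * (Δ * c1) / w := by ring
    rw [a1, div_le_iff₀ hw0]
    have a2 : Δ * c1 ≤ K * (1 / 2000 + 1 / 235) * c1 :=
      mul_le_mul_of_nonneg_right hΔ1 hc0.le
    have a3 : c1 * (K * (459 / 460)) ≤ c1 * w := mul_le_mul_of_nonneg_left hw1 hc0.le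
    have a4 : 0 < K * c1 := by positivity
    nlinarith
  have t3 : 2 * Δ * (1 / M) ≤ 0.001 := by
    rw [mul_one_div, div_le_iff₀ hm1]
    linarith
  have t4 : 2 * Δ * (2 / (k0 + 1)) ≤ 0.2503 := by
    rw [← mul_div_assoc, div_le_iff₀ hk00]
    linarith
  rw [hlog] at hc
  have t5 : 2 * Δ * (κ3 * (1 / M + 2 / (k0 + 1))) ≤ κ3 * 0.2513 := by
    calc 2 * Δ * (κ3 * (1 / M + 2 / (k0 + 1)))
        = κ3 * (2 * Δ * (1 / M) + 2 * Δ * (2 / (k0 + 1))) := by ring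
      _ ≤ κ3 * 0.2513 := mul_le_mul_of_nonneg_left (by linarith) hκ0.le
  have t6 : 2 * Δ * (1 / (M * (1 + (2 ^ 13 - 1))) +
        100 / 99 * (1.76 * c1 / w) * 13 +
        κ3 * (1 / M + 2 / (k0 + 1))) = 2 * Δ * (1 / (M * (1 + (2 ^ 13 - 1)))) +
        2 * Δ * (100 / 99 * (1.76 * c1 / w) * 13) +
        2 * Δ * (κ3 * (1 / M + 2 / (k0 + 1))) := by ring
  rw [t6] at hc
  linarith

end facts

end Pool.Agent.CP52
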