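import Mathlib
import Pool.Agent.CP51.Tilt

/-!
# The tilted ensemble, entropy form
-/

namespace Pool.Agent.CP52

open Finset

namespace TiltEnt

open Pool.Agent.CP51.TiltAux

variable {H : Type*}

/-- The number of pairs of a tuple of free members is at least `a ^ 2`. -/
theorem sq_le_total [Fintype H] (dj : H → H → Prop) (hdj : ∀ C C', dj C C' → dj C' C)
    (ch : H → H → ℕ) (n : ℕ) (θ a : ℝ) (hθ : 0 ≤ θ) (ha : 0 < a)
    (hcount : ∀ j ≤ n + 1, ∀ F : Fin j → H, (∀ i k, i ≠ k → dj (F i) (F k)) →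
      a ≤ ((open Classical in univ.filter fun C => ∀ i, dj (F i) C).card : ℝ))
    (F : Fin n → H) (hF : ∀ i k, i ≠ k → dj (F i) (F k)) :
    a ^ 2 ≤ ∑ C, ∑ C', sw (uw dj ch θ) F C * sw (uw dj ch θ) F C' * uw dj ch θ C C' := by
  classical
  set u := uw dj ch θ with hu
  have hu0 : ∀ C C', 0 ≤ u C C' := uw_nonneg hθ
  set s := sw u F with hs
  have hs0 : ∀ C, 0 ≤ s C := sw_nonneg u hu0 F
  set G := univ.filter (fun C => ∀ i, dj (F i) C) with hG
  have h1 : ∀ C ∈ G, a ≤ ∑ C', s C * s C' * u C C' := by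
    intro C hC
    have hC' : ∀ i, dj (F i) C := (mem_filter.1 hC).2
    have h2 := hcount (n + 1) le_rfl (Fin.cons C F : Fin (n + 1) → H)
      (pairwise_cons dj hdj F hF C hC')
    refine h2.trans ?_
    set G' := univ.filter (fun C' => ∀ i, dj ((Fin.cons C F : Fin (n + 1) → H) i) C') with hG'
    calc ((G'.card : ℕ) : ℝ) = ∑ _C' ∈ G', (1 : ℝ) := by simp
      _ ≤ ∑ C' ∈ G', s C * s C' * u C C' := by
        refine sum_le_sum fun C' hC2 => ?_
        have h3 : ∀ i, dj ((Fin.cons C F : Fin (n + 1) → H) i) C' := (mem_filter.1 hC2).2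
        have h4 : dj C C' := by simpa using h3 0
        have h5 : ∀ i, dj (F i) C' := fun i => by simpa using h3 i.succ
        have h6 : 1 ≤ s C := one_le_sw hθ F C hC'
        have h7 : 1 ≤ s C' := one_le_sw hθ F C' h5
        have h8 : 1 ≤ u C C' := one_le_uw hθ h4
        have h9 : 1 ≤ s C * s C' := by nlinarith
        nlinarith
      _ ≤ ∑ C', s C * s C' * u C C' :=
        sum_le_sum_of_subset_of_nonneg (subset_univ _) fun C' _ _ => by
          have := hs0 C; have := hs0 C'; have := hu0 C C'; positivity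
  have h2 : a ≤ (G.card : ℝ) := hcount n (by omega) F hF
  calc a ^ 2 ≤ (G.card : ℝ) * a := by nlinarith
    _ = ∑ _C ∈ G, a := by simp
    _ ≤ ∑ C ∈ G, ∑ C', s C * s C' * u C C' := sum_le_sum h1
    _ ≤ ∑ C, ∑ C', s C * s C' * u C C' :=
      sum_le_sum_of_subset_of_nonneg (subset_univ _) fun C _ _ =>
        sum_nonneg fun C' _ => by
          have := hs0 C; have := hs0 C'; have := hu0 C C'; positivity

open Classical in
/-- **One step**: the inequality for a fixed tuple of the other members. -/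
theorem tilt_step [Fintype H] (dj : H → H → Prop) (hdj : ∀ C C', dj C C' → dj C' C)
    (ch : H → H → ℕ)
    (l : ℕ) (hl : ∀ C C', dj C C' → ch C C' ≤ l) (n : ℕ)
    (θ a lam ρ κ1 κ2 Λ : ℝ) (k0 : ℕ) (hθ : 0 < θ) (ha : 0 < a) (hρ0 : 0 ≤ ρ)
    (hlam0 : 0 < lam) (hκ2 : 0 ≤ κ2) (hk3 : 0 ≤ κ1 - κ2 * (Λ - Real.logb 2 lam))
    (hlam : 100 * (lam ^ 2 * (1 + θ * l)) ≤ a ^ 2)
    (hρ : (1 + θ) ^ k0 ≤ ρ * lam)
    (hcount : ∀ j ≤ n + 1, ∀ F : Fin j → H, (∀ i k, i ≠ k → dj (F i) (F k)) →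
      a ≤ ((univ.filter fun C => ∀ i, dj (F i) C).card : ℝ))
    (R : H → H → Prop) (hRdj : ∀ C C', R C C' → ∀ X, dj X C ↔ dj X C')
    (hRch : ∀ C C', R C C' → ∀ X, ch X C = ch X C')
    (hE : ∀ s : H → ℝ, (∀ C, 0 ≤ s C) → 0 < ∑ C, s C → (∀ C C', R C C' → s C = s C') →
      (∀ C, s C ≤ ρ * ∑ C', s C') →
      κ1 * (∑ C, s C) ^ 2 - κ2 * (∑ C, s C) * ((∑ C, s C * Real.logb 2 (s C)) +
        (∑ C, s C) * (Λ - Real.logb 2 (∑ C, s C))) ≤
        ∑ C, ∑ C', if dj C C' then s C * s C' * (ch C C' : ℝ) else 0)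
    (hmeet : ∀ A, ((univ.filter fun B => ¬ dj A B).card : ℝ) * ρ ≤ 1 / 100)
    (F : Fin n → H) (hF : ∀ i k, i ≠ k → dj (F i) (F k)) :
    (1 + θ) * ((κ1 - κ2 * (Λ - Real.logb 2 lam)) *
      ((∑ C, ∑ C', (if (∑ j, ch (F j) C) ≤ k0 ∧ (∑ j, ch (F j) C') ≤ k0 then
        sw (uw dj ch θ) F C * sw (uw dj ch θ) F C' * uw dj ch θ C C' else 0))
        - (∑ C, ∑ C', sw (uw dj ch θ) F C * sw (uw dj ch θ) F C' * uw dj ch θ C C') / 100
        - ∑ C, ∑ C', sw (uw dj ch θ) F C * sw (uw dj ch θ) F C' * uw dj ch θ C C' * ch C C')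
      - 100 / 99 * κ2 * Real.logb 2 (1 + θ) *
        ∑ C, ∑ C', sw (uw dj ch θ) F C * sw (uw dj ch θ) F C' * uw dj ch θ C C' *
          ((∑ j, ch (F j) C : ℕ) : ℝ))
      ≤ ∑ C, ∑ C', sw (uw dj ch θ) F C * sw (uw dj ch θ) F C' * uw dj ch θ C C' * ch C C' := by
  set u := uw dj ch θ with hu
  have hu0 : ∀ C C', 0 ≤ u C C' := uw_nonneg hθ.le
  set s := sw u F with hs
  have hs0 : ∀ C, 0 ≤ s C := sw_nonneg u hu0 F
  set χ : H → ℕ := fun C => ∑ j, ch (F j) C with hχ
  set t : H → ℝ := fun C => if χ C ≤ k0 then s C else 0 with ht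
  have ht0 : ∀ C, 0 ≤ t C := fun C => by simp only [ht]; split_ifs; exacts [hs0 C, le_refl _]
  have hts : ∀ C, t C ≤ s C := fun C => by simp only [ht]; split_ifs; exacts [le_refl _, hs0 C]
  set W := ∑ C, t C with hW
  have hW0 : 0 ≤ W := sum_nonneg fun C _ => ht0 C
  have hP : (∑ C, ∑ C', (if χ C ≤ k0 ∧ χ C' ≤ k0 then
        s C * s C' * u C C' else 0)) = ∑ C, ∑ C', t C * t C' * u C C' := by
    refine sum_congr rfl fun C _ => sum_congr rfl fun C' _ => ?_
    simp only [ht]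
    by_cases h1 : χ C ≤ k0 <;> by_cases h2 : χ C' ≤ k0 <;> simp [h1, h2]
  rw [hP]
  set P := ∑ C, ∑ C', t C * t C' * u C C' with hPd
  set A := ∑ C, ∑ C', s C * s C' * u C C' with hA
  set X := ∑ C, ∑ C', s C * s C' * u C C' * (ch C C' : ℝ) with hX
  set S1 := ∑ C, ∑ C', s C * s C' * u C C' * ((χ C : ℕ) : ℝ) with hS1
  set Y := ∑ C, ∑ C', (if dj C C' then t C * t C' * (ch C C' : ℝ) else 0) with hY
  set k3 := κ1 - κ2 * (Λ - Real.logb 2 lam) with hk3d
  set L := Real.logb 2 (1 + θ) with hL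
  have hL0 : 0 ≤ L := Real.logb_nonneg (by norm_num) (by linarith)
  have hX0 : 0 ≤ X := sum_nonneg fun C _ => sum_nonneg fun C' _ => by
    have := hs0 C; have := hs0 C'; have := hu0 C C'; positivity
  have hS0 : 0 ≤ S1 := sum_nonneg fun C _ => sum_nonneg fun C' _ => by
    have := hs0 C; have := hs0 C'; have := hu0 C C'; positivity
  have hA0 : 0 ≤ A := sum_nonneg fun C _ => sum_nonneg fun C' _ => by
    have := hs0 C; have := hs0 C'; have := hu0 C C'; positivity
  -- P ≤ W² + θ Y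
  have hPW : P ≤ W ^ 2 + θ * Y := by
    have e : W ^ 2 + θ * Y
        = ∑ C, ∑ C', (t C * t C' + θ * (if dj C C' then t C * t C' * (ch C C' : ℝ) else 0)) := by
      simp only [sum_add_distrib, ← mul_sum]
      rw [← hY]
      congr 1
      rw [sq, hW, sum_mul]
    rw [e]
    refine sum_le_sum fun C _ => sum_le_sum fun C' _ => ?_
    have h1 := mul_nonneg (ht0 C) (ht0 C')
    rw [hu]; unfold uw
    split_ifs
    · nlinarith
    · simpa using h1
  -- (1 + θ) Y ≤ X
  have hYX : (1 + θ) * Y ≤ X := by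
    rw [hY, hX, mul_sum]
    refine sum_le_sum fun C _ => ?_
    rw [mul_sum]
    refine sum_le_sum fun C' _ => ?_
    have h1 : t C * t C' ≤ s C * s C' := mul_le_mul (hts C) (hts C') (ht0 C') (hs0 C)
    have h2 := mul_nonneg (ht0 C) (ht0 C')
    rw [hu]; unfold uw
    split_ifs
    · rcases Nat.eq_zero_or_pos (ch C C') with h0 | h0
      · simp [h0]
      · have h3 : (1 : ℝ) ≤ ch C C' := by exact_mod_cast h0
        have h4 : (1 + θ) * (ch C C' : ℝ) ≤ (1 + θ * (ch C C' : ℝ)) * (ch C C' : ℝ) := by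
          have : θ * 1 ≤ θ * (ch C C' : ℝ) := mul_le_mul_of_nonneg_left h3 hθ.le
          refine mul_le_mul_of_nonneg_right (by linarith) (by positivity)
        calc (1 + θ) * (t C * t C' * (ch C C' : ℝ))
            = (t C * t C') * ((1 + θ) * (ch C C' : ℝ)) := by ring
          _ ≤ (s C * s C') * ((1 + θ * (ch C C' : ℝ)) * (ch C C' : ℝ)) :=
            mul_le_mul h1 h4 (by positivity) (by have := hs0 C; have := hs0 C'; positivity)
          _ = _ := by ring
    · simp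
  have hYnn : 0 ≤ Y := sum_nonneg fun C _ => sum_nonneg fun C' _ => by
    have := ht0 C; have := ht0 C'
    split_ifs
    · positivity
    · exact le_rfl
  rcases lt_or_ge W lam with hlt | hge
  · -- small W
    have hPa : P ≤ W ^ 2 * (1 + θ * l) := by
      have e : W ^ 2 * (1 + θ * l) = ∑ C, ∑ C', t C * t C' * (1 + θ * l) := by
        rw [sq, hW, sum_mul, sum_mul]
        refine sum_congr rfl fun C _ => ?_
        rw [mul_sum, sum_mul]
      rw [e]
      refine sum_le_sum fun C _ => sum_le_sum fun C' _ => ?_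
      have h1 := mul_nonneg (ht0 C) (ht0 C')
      refine mul_le_mul_of_nonneg_left ?_ h1
      rw [hu]; unfold uw
      split_ifs with h
      · have h2 : (ch C C' : ℝ) ≤ l := by exact_mod_cast hl C C' h
        have := mul_le_mul_of_nonneg_left h2 hθ.le
        linarith
      · positivity
    have hAa : a ^ 2 ≤ A := sq_le_total dj hdj ch n θ a hθ.le ha hcount F hF
    have h3 : W ^ 2 * (1 + θ * l) ≤ lam ^ 2 * (1 + θ * l) := by
      refine mul_le_mul_of_nonneg_right ?_ (by positivity)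
      exact pow_le_pow_left₀ hW0 hlt.le 2
    have h4 : P ≤ A / 100 := by linarith
    have h5 : k3 * (P - A / 100 - X) ≤ 0 :=
      mul_nonpos_of_nonneg_of_nonpos hk3 (by linarith)
    have h6 : 0 ≤ 100 / 99 * κ2 * L * S1 := by positivity
    have h7 : (1 + θ) * (k3 * (P - A / 100 - X) - 100 / 99 * κ2 * L * S1) ≤ 0 :=
      mul_nonpos_of_nonneg_of_nonpos (by linarith) (by linarith)
    linarith
  · -- large W
    have hWp : 0 < W := lt_of_lt_of_le hlam0 hge
    have htρ : ∀ C, t C ≤ ρ * W := by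
      intro C
      have h2 : t C ≤ (1 + θ) ^ k0 := by
        simp only [ht]
        split_ifs with h
        · exact (sw_le_pow hθ.le F C).trans (pow_le_pow_right₀ (by linarith) h)
        · positivity
      calc t C ≤ (1 + θ) ^ k0 := h2
        _ ≤ ρ * lam := hρ
        _ ≤ ρ * W := mul_le_mul_of_nonneg_left hge hρ0
    have h1 := hE t ht0 hWp (by
      intro C C' h
      have e1 : s C = s C' := by
        rw [hs]; unfold sw
        refine prod_congr rfl fun i _ => ?_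
        rw [hu]; unfold uw
        rw [hRch C C' h (F i)]
        simp only [hRdj C C' h (F i)]
      have e2 : χ C = χ C' :=
        sum_congr rfl fun j _ => hRch C C' h (F j)
      simp only [ht]
      rw [e1, e2]) htρ
    rw [← hW, ← hY] at h1
    -- the entropy
    set Tχ := ∑ C, t C * (χ C : ℝ) with hTχ
    have hent : ∑ C, t C * Real.logb 2 (t C) ≤ L * Tχ := by
      rw [hTχ, mul_sum]
      refine sum_le_sum fun C _ => ?_
      rcases (ht0 C).eq_or_lt with h0 | h0
      · rw [← h0]; simp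
      · have h2 : t C ≤ (1 + θ) ^ χ C := (hts C).trans (sw_le_pow hθ.le F C)
        have h3 : Real.logb 2 (t C) ≤ χ C * L := by
          calc Real.logb 2 (t C) ≤ Real.logb 2 ((1 + θ) ^ χ C) :=
                Real.logb_le_logb_of_le (by norm_num) h0 h2
            _ = χ C * L := by rw [Real.logb_pow]
        calc t C * Real.logb 2 (t C) ≤ t C * (χ C * L) := mul_le_mul_of_nonneg_left h3 h0.le
          _ = _ := by ring
    have hlog : Real.logb 2 lam ≤ Real.logb 2 W :=
      Real.logb_le_logb_of_le (by norm_num) hlam0 hge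
    -- Y ≥ k3 W² - κ2 L W Tχ
    have h2 : k3 * W ^ 2 - κ2 * L * (W * Tχ) ≤ Y := by
      refine le_trans ?_ h1
      have h3 : κ2 * W * (∑ C, t C * Real.logb 2 (t C)) ≤ κ2 * W * (L * Tχ) :=
        mul_le_mul_of_nonneg_left hent (by positivity)
      have h4 : κ2 * W ^ 2 * Real.logb 2 lam ≤ κ2 * W ^ 2 * Real.logb 2 W :=
        mul_le_mul_of_nonneg_left hlog (by positivity)
      rw [hk3d]
      nlinarith
    -- W Tχ ≤ 100/99 S1
    have h3 : 99 / 100 * (W * Tχ) ≤ S1 := by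
      have e : 99 / 100 * (W * Tχ) = ∑ C, 99 / 100 * W * (t C * (χ C : ℝ)) := by
        rw [hTχ, ← mul_sum]; ring
      rw [e]
      refine sum_le_sum fun C _ => ?_
      have h4 : 99 / 100 * W ≤ ∑ C', s C' * u C C' := by
        have h5 : W = ∑ C' ∈ univ.filter (fun B => dj C B), t C' +
            ∑ C' ∈ univ.filter (fun B => ¬ dj C B), t C' := by
          rw [hW, sum_filter_add_sum_filter_not]
        have h6 : ∑ C' ∈ univ.filter (fun B => ¬ dj C B), t C' ≤ 1 / 100 * W := by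
          calc ∑ C' ∈ univ.filter (fun B => ¬ dj C B), t C'
              ≤ ∑ _C' ∈ univ.filter (fun B => ¬ dj C B), ρ * W :=
                sum_le_sum fun C' _ => htρ C'
            _ = (((univ.filter fun B => ¬ dj C B).card : ℝ) * ρ) * W := by
                rw [sum_const, nsmul_eq_mul]; ring
            _ ≤ 1 / 100 * W := mul_le_mul_of_nonneg_right (hmeet C) hW0
        have h7 : ∑ C' ∈ univ.filter (fun B => dj C B), t C' ≤ ∑ C', s C' * u C C' := by
          calc ∑ C' ∈ univ.filter (fun B => dj C B), t C'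
              ≤ ∑ C' ∈ univ.filter (fun B => dj C B), s C' * u C C' := by
                refine sum_le_sum fun C' hC' => ?_
                have h8 : 1 ≤ u C C' := one_le_uw hθ.le (mem_filter.1 hC').2
                calc t C' ≤ s C' := hts C'
                  _ = s C' * 1 := by ring
                  _ ≤ s C' * u C C' := mul_le_mul_of_nonneg_left h8 (hs0 C')
            _ ≤ _ := sum_le_sum_of_subset_of_nonneg (subset_univ _) fun C' _ _ =>
                mul_nonneg (hs0 C') (hu0 C C')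
        linarith
      have h5 : 99 / 100 * W * (t C * (χ C : ℝ)) ≤
          (∑ C', s C' * u C C') * (s C * (χ C : ℝ)) := by
        refine mul_le_mul h4 ?_ (by have := ht0 C; positivity)
          (sum_nonneg fun C' _ => mul_nonneg (hs0 C') (hu0 C C'))
        exact mul_le_mul_of_nonneg_right (hts C) (by positivity)
      refine h5.trans (le_of_eq ?_)
      rw [sum_mul]
      exact sum_congr rfl fun C' _ => by ring
    have h4 : κ2 * L * (W * Tχ) ≤ 100 / 99 * κ2 * L * S1 := by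
      have h5 : W * Tχ ≤ 100 / 99 * S1 := by linarith
      calc κ2 * L * (W * Tχ) ≤ κ2 * L * (100 / 99 * S1) :=
            mul_le_mul_of_nonneg_left h5 (by positivity)
        _ = _ := by ring
    have h5 : P - A / 100 - X ≤ W ^ 2 := by
      have : θ * Y ≤ X := by nlinarith
      linarith
    have h6 : k3 * (P - A / 100 - X) ≤ k3 * W ^ 2 := mul_le_mul_of_nonneg_left h5 hk3
    calc (1 + θ) * (k3 * (P - A / 100 - X) - 100 / 99 * κ2 * L * S1)
        ≤ (1 + θ) * Y := mul_le_mul_of_nonneg_left (by linarith) (by linarith)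
      _ ≤ X := hYX

open Classical in
/-- **The tilted ensemble**, with `n + 2` members and a symmetric contact count. -/
theorem tilt_aux [Fintype H] (dj : H → H → Prop) (hdj : ∀ C C', dj C C' → dj C' C)
    (ch : H → H → ℕ) (hch : ∀ C C', ch C C' = ch C' C)
    (l : ℕ) (hl : ∀ C C', dj C C' → ch C C' ≤ l) (n : ℕ)
    (θ Δ a lam ρ κ1 κ2 Λ : ℝ) (k0 : ℕ) (hθ : 0 < θ) (ha : 0 < a) (hρ0 : 0 ≤ ρ) (hΔ : 0 < Δ)
    (hlam0 : 0 < lam) (hκ2 : 0 ≤ κ2) (hk3 : 0 ≤ κ1 - κ2 * (Λ - Real.logb 2 lam))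
    (hlam : 100 * (lam ^ 2 * (1 + θ * l)) ≤ a ^ 2)
    (hρ : (1 + θ) ^ k0 ≤ ρ * lam)
    (hcount : ∀ j ≤ n + 1, ∀ F : Fin j → H, (∀ i k, i ≠ k → dj (F i) (F k)) →
      a ≤ ((univ.filter fun C => ∀ i, dj (F i) C).card : ℝ))
    (hno : ∀ F : Fin (n + 2) → H, (∀ i j, i ≠ j → dj (F i) (F j)) →
      (∑ i, ∑ j ∈ Ioi i, (ch (F i) (F j) : ℝ)) ≤ Δ * (n + 2))
    (R : H → H → Prop) (hRdj : ∀ C C', R C C' → ∀ X, dj X C ↔ dj X C')
    (hRch : ∀ C C', R C C' → ∀ X, ch X C = ch X C')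
    (hE : ∀ s : H → ℝ, (∀ C, 0 ≤ s C) → 0 < ∑ C, s C → (∀ C C', R C C' → s C = s C') →
      (∀ C, s C ≤ ρ * ∑ C', s C') →
      κ1 * (∑ C, s C) ^ 2 - κ2 * (∑ C, s C) * ((∑ C, s C * Real.logb 2 (s C)) +
        (∑ C, s C) * (Λ - Real.logb 2 (∑ C, s C))) ≤
        ∑ C, ∑ C', if dj C C' then s C * s C' * (ch C C' : ℝ) else 0)
    (hmeet : ∀ A, ((univ.filter fun B => ¬ dj A B).card : ℝ) * ρ ≤ 1 / 100) :
    (κ1 - κ2 * (Λ - Real.logb 2 lam)) * (99 / 100) ≤
      2 * Δ * (1 / ((n + 1) * (1 + θ)) + 100 / 99 * κ2 * Real.logb 2 (1 + θ) +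
        (κ1 - κ2 * (Λ - Real.logb 2 lam)) * (1 / (n + 1) + 2 / (k0 + 1))) := by
  set u := uw dj ch θ with hu
  have hu0 : ∀ C C', 0 ≤ u C C' := uw_nonneg hθ.le
  have hus : ∀ C C', u C C' = u C' C := uw_symm hdj hch
  set k3 := κ1 - κ2 * (Λ - Real.logb 2 lam) with hk3d
  set L := Real.logb 2 (1 + θ) with hL
  have hL0 : 0 ≤ L := Real.logb_nonneg (by norm_num) (by linarith)
  set Z := ∑ F : Fin (n + 2) → H, wt u F with hZ
  set Q := ∑ F : Fin (n + 2) → H, wt u F * (ch (F 0) (F 1) : ℝ) with hQ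
  have hw0 : ∀ {k : ℕ} (F : Fin k → H), 0 ≤ wt u F := fun F => wt_nonneg u hu0 F
  -- (U)
  have hU : (n + 1) * Q ≤ 2 * Δ * Z := by
    have h1 : ∑ F : Fin (n + 2) → H, wt u F * (∑ i, ∑ j ∈ Ioi i, (ch (F i) (F j) : ℝ))
        ≤ Δ * (n + 2) * Z := by
      rw [hZ, mul_sum]
      refine sum_le_sum fun F _ => ?_
      rcases eq_or_ne (wt u F) 0 with h0 | h0
      · rw [h0]; simp
      · rw [mul_comm (Δ * ((n : ℝ) + 2))]
        exact mul_le_mul_of_nonneg_left (hno F (dj_of_wt_ne_zero hdj F h0)) (hw0 F)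
    have h2 : ∑ F : Fin (n + 2) → H, wt u F * (∑ i, ∑ j ∈ Ioi i, (ch (F i) (F j) : ℝ))
        = ∑ i : Fin (n + 2), ∑ _j ∈ Ioi i, Q := by
      simp only [mul_sum]
      rw [sum_comm]
      refine sum_congr rfl fun i _ => ?_
      rw [sum_comm]
      refine sum_congr rfl fun j hj => ?_
      exact exch u hus (fun x y => (ch x y : ℝ)) i j (ne_of_lt (mem_Ioi.1 hj))
    have h3 : ∑ i : Fin (n + 2), ∑ _j ∈ Ioi i, Q = (n + 2) * (n + 1) / 2 * Q := by
      have h4 := sum_card_Ioi (n + 2)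
      push_cast at h4
      simp only [sum_const, nsmul_eq_mul]
      rw [← sum_mul]
      have : ∑ i : Fin (n + 2), ((Ioi i).card : ℝ) = (n + 2) * (n + 1) / 2 := by linarith
      rw [this]
    rw [h2, h3] at h1
    have h5 : (0 : ℝ) < (n : ℝ) + 2 := by positivity
    have h6 : ((n : ℝ) + 2) * ((n + 1) * Q) ≤ ((n : ℝ) + 2) * (2 * Δ * Z) := by nlinarith
    exact le_of_mul_le_mul_left h6 h5
  -- Z > 0
  have hZ0 : 0 < Z := by
    obtain ⟨F, hF⟩ := exists_family dj hdj (n + 1) (fun j hj F hF => by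
      have h1 := hcount j hj F hF
      have h2 : 0 < (univ.filter fun C => ∀ i, dj (F i) C).card := by
        have : (0 : ℝ) < ((univ.filter fun C => ∀ i, dj (F i) C).card : ℝ) := lt_of_lt_of_le ha h1
        exact_mod_cast this
      obtain ⟨C, hC⟩ := card_pos.1 h2
      exact ⟨C, (mem_filter.1 hC).2⟩) (n + 2) le_rfl
    have h1 : 1 ≤ wt u F := by
      unfold wt
      calc (1 : ℝ) = ∏ i : Fin (n + 2), ∏ _j ∈ Ioi i, (1 : ℝ) := by simp
        _ ≤ _ := prod_le_prod (fun _ _ => prod_nonneg fun _ _ => zero_le_one)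
            (fun i _ => prod_le_prod (fun _ _ => zero_le_one)
              (fun j hj => one_le_uw hθ.le (hF i j (ne_of_lt (mem_Ioi.1 hj)))))
    calc (0 : ℝ) < 1 := one_pos
      _ ≤ wt u F := h1
      _ ≤ Z := single_le_sum (fun F _ => hw0 F) (mem_univ F)
  have hQ0 : 0 ≤ Q := sum_nonneg fun F _ => mul_nonneg (hw0 F) (Nat.cast_nonneg _)
  -- Markov
  set TT : (Fin (n + 2) → H) → Prop := fun F =>
    (∑ j : Fin n, ch (F j.succ.succ) (F 0)) ≤ k0 ∧ (∑ j : Fin n, ch (F j.succ.succ) (F 1)) ≤ k0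
    with hTT
  have e0 : ∑ F : Fin (n + 2) → H, wt u F * (∑ j : Fin n, (ch (F j.succ.succ) (F 0) : ℝ))
      = n * Q := by
    simp only [mul_sum]
    rw [sum_comm]
    rw [sum_congr rfl (fun j _ => exch u hus (fun x y => (ch x y : ℝ)) j.succ.succ 0
      (Fin.succ_ne_zero _))]
    simp [hQ]
  have hM : Z * (k0 + 1) ≤ (∑ F : Fin (n + 2) → H, (if TT F then wt u F else 0)) * (k0 + 1)
      + 2 * n * Q := by
    have e1 : ∑ F : Fin (n + 2) → H, wt u F * (∑ j : Fin n, (ch (F j.succ.succ) (F 1) : ℝ))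
        = n * Q := by
      simp only [mul_sum]
      rw [sum_comm]
      rw [sum_congr rfl (fun j _ => exch u hus (fun x y => (ch x y : ℝ)) j.succ.succ 1
        (by
          intro h
          rw [← Fin.succ_zero_eq_one] at h
          exact Fin.succ_ne_zero _ (Fin.succ_injective _ h)))]
      simp [hQ]
    have e2 : 2 * n * Q = ∑ F : Fin (n + 2) → H,
        wt u F * ((∑ j : Fin n, (ch (F j.succ.succ) (F 0) : ℝ))
          + (∑ j : Fin n, (ch (F j.succ.succ) (F 1) : ℝ))) := by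
      simp only [mul_add, sum_add_distrib]
      rw [e0, e1]; ring
    rw [e2, hZ, sum_mul, sum_mul, ← sum_add_distrib]
    refine sum_le_sum fun F _ => ?_
    by_cases h : TT F
    · rw [if_pos h]
      have : 0 ≤ wt u F * ((∑ j : Fin n, (ch (F j.succ.succ) (F 0) : ℝ))
          + (∑ j : Fin n, (ch (F j.succ.succ) (F 1) : ℝ))) :=
        mul_nonneg (hw0 F) (by positivity)
      linarith
    · rw [if_neg h, zero_mul, zero_add]
      refine mul_le_mul_of_nonneg_left ?_ (hw0 F)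
      have h2 : k0 + 1 ≤ (∑ j : Fin n, ch (F j.succ.succ) (F 0))
          + (∑ j : Fin n, ch (F j.succ.succ) (F 1)) := by
        simp only [hTT] at h
        omega
      exact_mod_cast h2
  -- summation of the step
  have hdec1 : ∑ F : Fin (n + 2) → H, (if TT F then wt u F else 0)
      = ∑ F : Fin n → H, wt u F * (∑ C, ∑ C', (if (∑ j, ch (F j) C) ≤ k0 ∧
          (∑ j, ch (F j) C') ≤ k0 then sw u F C * sw u F C' * u C C' else 0)) := by
    rw [sum_tuple_split]
    refine sum_congr rfl fun F _ => ?_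
    rw [mul_sum]
    refine sum_congr rfl fun C _ => ?_
    rw [mul_sum]
    refine sum_congr rfl fun C' _ => ?_
    rw [wt_cons_cons u hus, mul_ite, mul_zero]
    rfl
  have hdec2 : Z = ∑ F : Fin n → H, wt u F *
      (∑ C, ∑ C', sw u F C * sw u F C' * u C C') := by
    rw [hZ, sum_tuple_split]
    refine sum_congr rfl fun F _ => ?_
    rw [mul_sum]
    refine sum_congr rfl fun C _ => ?_
    rw [mul_sum]
    refine sum_congr rfl fun C' _ => ?_
    rw [wt_cons_cons u hus]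
  have hdec3 : Q = ∑ F : Fin n → H, wt u F *
      (∑ C, ∑ C', sw u F C * sw u F C' * u C C' * ch C C') := by
    rw [hQ, sum_tuple_split]
    refine sum_congr rfl fun F _ => ?_
    rw [mul_sum]
    refine sum_congr rfl fun C _ => ?_
    rw [mul_sum]
    refine sum_congr rfl fun C' _ => ?_
    rw [wt_cons_cons u hus]
    change wt u F * (sw u F C * sw u F C' * u C C') * (ch C C' : ℝ) = _
    ring
  have hdec4 : (n : ℝ) * Q = ∑ F : Fin n → H, wt u F *
      (∑ C, ∑ C', sw u F C * sw u F C' * u C C' * ((∑ j, ch (F j) C : ℕ) : ℝ)) := by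
    rw [← e0, sum_tuple_split]
    refine sum_congr rfl fun F _ => ?_
    rw [mul_sum]
    refine sum_congr rfl fun C _ => ?_
    rw [mul_sum]
    refine sum_congr rfl fun C' _ => ?_
    rw [wt_cons_cons u hus, Nat.cast_sum]
    change wt u F * (sw u F C * sw u F C' * u C C') * (∑ j : Fin n, (ch (F j) C : ℝ)) = _
    ring
  set TZ := ∑ F : Fin (n + 2) → H, (if TT F then wt u F else 0) with hTZ
  have hsum : (1 + θ) * (k3 * (TZ - Z / 100 - Q) - 100 / 99 * κ2 * L * (n * Q)) ≤ Q := by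
    have e : (1 + θ) * (k3 * (TZ - Z / 100 - Q) - 100 / 99 * κ2 * L * (n * Q))
        = ∑ F : Fin n → H, wt u F * ((1 + θ) * (k3 *
          ((∑ C, ∑ C', (if (∑ j, ch (F j) C) ≤ k0 ∧ (∑ j, ch (F j) C') ≤ k0 then
            sw u F C * sw u F C' * u C C' else 0))
            - (∑ C, ∑ C', sw u F C * sw u F C' * u C C') / 100
            - ∑ C, ∑ C', sw u F C * sw u F C' * u C C' * ch C C')
          - 100 / 99 * κ2 * L *
            ∑ C, ∑ C', sw u F C * sw u F C' * u C C' * ((∑ j, ch (F j) C : ℕ) : ℝ))) := by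
      rw [hdec1, hdec4]
      conv_lhs => rw [hdec2, hdec3]
      rw [sum_div, ← sum_sub_distrib, ← sum_sub_distrib, mul_sum, mul_sum, ← sum_sub_distrib,
        mul_sum]
      refine sum_congr rfl fun F _ => ?_
      ring
    rw [e, hdec3]
    refine sum_le_sum fun F _ => ?_
    rcases eq_or_ne (wt u F) 0 with h0 | h0
    · rw [h0]; simp
    · exact mul_le_mul_of_nonneg_left (tilt_step dj hdj ch l hl n θ a lam ρ κ1 κ2 Λ k0 hθ ha
        hρ0 hlam0 hκ2 hk3 hlam hρ hcount R hRdj hRch hE hmeet F (dj_of_wt_ne_zero hdj F h0))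
        (hw0 F)
  -- the numbers
  set q := Q / Z with hq
  have hq0 : 0 ≤ q := by positivity
  have hQq : Q = q * Z := by rw [hq]; field_simp
  have hn1 : (0 : ℝ) < (n : ℝ) + 1 := by positivity
  have hk1 : (0 : ℝ) < (k0 : ℝ) + 1 := by positivity
  have hθ1 : (0 : ℝ) < 1 + θ := by linarith
  have hqU : q ≤ 2 * Δ / (n + 1) := by
    rw [le_div_iff₀ hn1]
    have : (q * (n + 1)) * Z ≤ (2 * Δ) * Z := by rw [hQq] at hU; linarith
    exact le_of_mul_le_mul_right this hZ0
  have hTZq : Z - 2 * n * q * Z / (k0 + 1) ≤ TZ := by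
    have h1 : Z * (k0 + 1) - 2 * n * (q * Z) ≤ TZ * (k0 + 1) := by rw [hQq] at hM; linarith
    have h2 : Z - 2 * n * q * Z / (k0 + 1) = (Z * (k0 + 1) - 2 * n * (q * Z)) / (k0 + 1) := by
      field_simp
    rw [h2, div_le_iff₀ hk1]
    exact h1
  have hmain : (1 + θ) * (k3 * (1 - 2 * n * q / (k0 + 1) - 1 / 100 - q)
      - 100 / 99 * κ2 * L * (n * q)) ≤ q := by
    have h1 : (1 + θ) * (k3 * ((Z - 2 * n * q * Z / (k0 + 1)) - Z / 100 - Q)
        - 100 / 99 * κ2 * L * (n * Q)) ≤ Q := by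
      refine le_trans (mul_le_mul_of_nonneg_left ?_ hθ1.le) hsum
      have := mul_le_mul_of_nonneg_left (show (Z - 2 * n * q * Z / (k0 + 1)) - Z / 100 - Q ≤
        TZ - Z / 100 - Q by linarith) hk3
      linarith
    rw [hQq] at h1
    have h2 : ((1 + θ) * (k3 * (1 - 2 * n * q / (k0 + 1) - 1 / 100 - q)
      - 100 / 99 * κ2 * L * (n * q))) * Z ≤ q * Z := by
      refine le_trans (le_of_eq ?_) h1
      ring
    exact le_of_mul_le_mul_right h2 hZ0
  have hdiv : k3 * (1 - 2 * n * q / (k0 + 1) - 1 / 100 - q)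
      - 100 / 99 * κ2 * L * (n * q) ≤ q / (1 + θ) := by
    rw [le_div_iff₀ hθ1]
    linarith
  have hnq : n * q ≤ 2 * Δ := by
    have h1 : (n : ℝ) * q ≤ (n + 1) * q := mul_le_mul_of_nonneg_right (by linarith) hq0
    have h2 : (n + 1) * q ≤ 2 * Δ := by
      rw [le_div_iff₀ hn1] at hqU
      linarith
    linarith
  have g1 : q / (1 + θ) ≤ 2 * Δ * (1 / ((n + 1) * (1 + θ))) := by
    have : 2 * Δ * (1 / ((n + 1) * (1 + θ))) = (2 * Δ / (n + 1)) / (1 + θ) := by
      field_simp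
    rw [this]
    exact div_le_div_of_nonneg_right hqU hθ1.le
  have g2 : 100 / 99 * κ2 * L * (n * q) ≤ 2 * Δ * (100 / 99 * κ2 * L) := by
    have := mul_le_mul_of_nonneg_left hnq (show 0 ≤ 100 / 99 * κ2 * L by positivity)
    linarith
  have g3 : k3 * (2 * n * q / (k0 + 1) + q) ≤ 2 * Δ * (k3 * (1 / (n + 1) + 2 / (k0 + 1))) := by
    have h1 : 2 * n * q / (k0 + 1) ≤ 2 * Δ * (2 / (k0 + 1)) := by
      have h2 : 2 * Δ * (2 / (k0 + 1)) = (2 * (2 * Δ)) / (k0 + 1) := by ring
      rw [h2]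
      exact div_le_div_of_nonneg_right (by linarith) hk1.le
    have h3 : q ≤ 2 * Δ * (1 / (n + 1)) := by
      refine hqU.trans (le_of_eq ?_)
      ring
    have h4 : k3 * (2 * n * q / (k0 + 1) + q) ≤
        k3 * (2 * Δ * (2 / (k0 + 1)) + 2 * Δ * (1 / (n + 1))) :=
      mul_le_mul_of_nonneg_left (by linarith) hk3
    linarith
  linarith

end TiltEnt

/-- The tilted ensemble with an energy inequality which contains the entropy of the weight. -/
theorem tilt {H : Type} [Fintype H] [DecidableEq H] (dj : H → H → Prop) [DecidableRel dj]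
    (ch : H → H → ℕ) (rel : H → H → Prop)
    (djs : ∀ A B, dj A B → dj B A) (chs : ∀ A B, dj A B → ch A B = ch B A)
    (rdj : ∀ A B X, rel A B → (dj X A ↔ dj X B))
    (rch : ∀ A B X, rel A B → dj X A → ch X A = ch X B)
    (m l k0 K2 : ℕ) (hm : 2 ≤ m) (a θ ρ κ1 κ2 Λ Δ : ℝ) (ha : 0 < a) (hθ : 0 < θ)
    (hρ : 0 < ρ) (hκ2 : 0 ≤ κ2) (hΔ : 0 < Δ)
    (hch : ∀ A B, dj A B → ch A B ≤ l)
    (hA : ∀ F : List H, F.length < m → F.Pairwise dj →
      a ≤ ((univ.filter fun C => ∀ X ∈ F, dj X C).card : ℝ))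
    (hD : ∀ F : Fin m → H, (∀ i j, i ≠ j → dj (F i) (F j)) →
      (∑ i, ∑ j ∈ Finset.univ.filter (fun j => i < j), (ch (F i) (F j) : ℝ)) ≤ Δ * m)
    (hE : ∀ s : H → ℝ, (∀ C, 0 ≤ s C) → 0 < ∑ C, s C → (∀ A B, rel A B → s A = s B) →
      (∀ C, s C ≤ ρ * ∑ B, s B) →
      κ1 * (∑ C, s C) ^ 2 - κ2 * (∑ C, s C) * ((∑ C, s C * Real.logb 2 (s C)) +
        (∑ C, s C) * (Λ - Real.logb 2 (∑ C, s C))) ≤
        ∑ A, ∑ B, s A * s B * (if dj A B then (ch A B : ℝ) else 0))
    (hmeet : ∀ A, (univ.filter fun B => ¬ dj A B).card ≤ K2) (hK2 : K2 * ρ ≤ 1 / 100)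
    (hκ : 0 ≤ κ1 - κ2 * (Λ - Real.logb 2 (a / (10 * √(1 + θ * l)))))
    (h2 : (1 + θ) ^ k0 * (10 * √(1 + θ * l)) ≤ ρ * a) :
    (κ1 - κ2 * (Λ - Real.logb 2 (a / (10 * √(1 + θ * l))))) * (99 / 100) ≤
      2 * Δ * (1 / ((m - 1) * (1 + θ)) + 100 / 99 * κ2 * Real.logb 2 (1 + θ) +
        (κ1 - κ2 * (Λ - Real.logb 2 (a / (10 * √(1 + θ * l))))) *
          (1 / (m - 1) + 2 / (k0 + 1))) := by
  obtain ⟨n, rfl⟩ : ∃ n, m = n + 2 := ⟨m - 2, by omega⟩
  have hθl : (0 : ℝ) < 1 + θ * l := by positivity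
  have hsq : 0 < √(1 + θ * (l : ℝ)) := Real.sqrt_pos.2 hθl
  have hsq2 : √(1 + θ * (l : ℝ)) ^ 2 = 1 + θ * l := Real.sq_sqrt hθl.le
  set ch' : H → H → ℕ := fun A B => if dj A B then ch A B else 0 with hch'
  have key := TiltEnt.tilt_aux dj djs ch' (by
      intro A B
      simp only [hch']
      by_cases h : dj A B
      · rw [if_pos h, if_pos (djs _ _ h), chs A B h]
      · rw [if_neg h, if_neg (fun h' => h (djs _ _ h'))])
    l (by
      intro A B h
      simp only [hch', if_pos h]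
      exact hch A B h)
    n θ Δ a (a / (10 * √(1 + θ * l))) ρ κ1 κ2 Λ k0 hθ ha hρ.le hΔ (by positivity) hκ2 hκ
    (by
      rw [div_pow, mul_pow, hsq2]
      apply le_of_eq
      field_simp
      ring)
    (by
      rw [← mul_div_assoc, le_div_iff₀ (by positivity)]
      exact h2)
    (by
      intro j hj F hF
      have := hA (List.ofFn F) (by rw [List.length_ofFn]; omega)
        (List.pairwise_ofFn.2 fun i k hik => hF i k (ne_of_lt hik))
      refine this.trans (le_of_eq ?_)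
      congr 2
      ext C
      simp)
    (by
      intro F hF
      have := hD F hF
      push_cast at this
      refine le_trans (le_of_eq ?_) this
      refine sum_congr rfl fun i _ => ?_
      rw [Finset.filter_lt_eq_Ioi]
      refine sum_congr rfl fun j hj => ?_
      simp only [hch', if_pos (hF i j (ne_of_lt (mem_Ioi.1 hj)))])
    rel (fun A B h X => rdj A B X h)
    (by
      intro A B h X
      simp only [hch']
      by_cases h3 : dj X A
      · rw [if_pos h3, if_pos ((rdj A B X h).1 h3), rch A B X h h3]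
      · rw [if_neg h3, if_neg (fun h4 => h3 ((rdj A B X h).2 h4))])
    (by
      intro s hs hsp hsr hsρ
      refine (hE s hs hsp hsr hsρ).trans (le_of_eq ?_)
      refine sum_congr rfl fun A _ => sum_congr rfl fun B _ => ?_
      simp only [hch']
      split_ifs <;> simp)
    (by
      intro A
      have h1 : ((univ.filter fun B => ¬ dj A B).card : ℝ) ≤ K2 := by exact_mod_cast hmeet A
      refine le_trans (mul_le_mul_of_nonneg_right (le_trans (le_of_eq ?_) h1) hρ.le) hK2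
      congr 2
      ext B
      simp)
  push_cast
  have e1 : ((n : ℝ) + 2 - 1) = n + 1 := by ring
  rw [e1]
  exact key

end Pool.Agent.CP52
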