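import Pool.Agent.CP52.Defs

/-!
# The entropy of a window
-/

namespace Pool.Agent.CP52

open Pool.Agent.CP51

variable {D : Type}

private lemma sum_folFair {G : Cub D} [Fintype D] {l : ℕ} (s : G.H l → ℝ) (e : D)
    (h : D → ℝ) :
    (open Classical in ∑ C : G.H l, if C.sq 0 = e then s C * h (C.sq 1) else 0) =
      Cub.y2 s e (G.σ (G.τ e)) * h (G.σ (G.τ e)) +
        Cub.y2 s e (G.σ (G.σ (G.τ e))) * h (G.σ (G.σ (G.τ e))) := by
  classical
  unfold Cub.y2
  rw [Finset.sum_mul, Finset.sum_mul, ← Finset.sum_add_distrib]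
  refine Finset.sum_congr rfl fun C _ => ?_
  by_cases h0 : C.sq 0 = e
  · have hf : G.Fol (C.sq 0) (C.sq 1) := by
      have := C.fol (0 : ℤ)
      simpa [Cub.H.sq] using this
    have hne : G.σ (G.σ (G.τ e)) ≠ G.σ (G.τ e) := G.σne _
    rw [h0] at hf
    rcases hf with hf | hf
    · simp [h0, hf, hne.symm]
    · simp [h0, hf, hne]
  · simp [h0]

private lemma y1_eqFair {G : Cub D} [Fintype D] {l : ℕ} (s : G.H l → ℝ) (e : D) :
    Cub.y1 s e = Cub.y2 s e (G.σ (G.τ e)) + Cub.y2 s e (G.σ (G.σ (G.τ e))) := by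
  classical
  have h := sum_folFair s e (fun _ => 1)
  simp only [mul_one] at h
  rw [← h]
  rfl

private lemma y1_nonnegFair {G : Cub D} [Fintype D] {l : ℕ} (s : G.H l → ℝ)
    (hs : ∀ C, 0 ≤ s C) (e : D) : 0 ≤ Cub.y1 s e := by
  classical
  unfold Cub.y1
  refine Finset.sum_nonneg fun C _ => ?_
  split_ifs
  · exact hs C
  · exact le_rfl

private lemma sum_chainFair [Fintype D] (ψ : D → D → ℝ) (h : ∀ e, ∑ f, ψ e f = 2) (w : ℕ) :
    ∑ p : Fin (w + 1) → D, ∏ i : Fin w, ψ (p i.castSucc) (p i.succ) =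
      Fintype.card D * 2 ^ w := by
  induction w with
  | zero => simp
  | succ w ih =>
    rw [← (Fin.snocEquiv (fun _ : Fin (w + 2) => D)).sum_comp, Fintype.sum_prod_type,
      Finset.sum_comm]
    have h1 : ∀ (q : Fin (w + 1) → D) (f : D),
        ∏ i : Fin (w + 1), ψ ((Fin.snocEquiv (fun _ : Fin (w + 2) => D)) (f, q) i.castSucc)
          ((Fin.snocEquiv (fun _ : Fin (w + 2) => D)) (f, q) i.succ) =
        (∏ i : Fin w, ψ (q i.castSucc) (q i.succ)) * ψ (q (Fin.last w)) f := by
      intro q f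
      rw [Fin.prod_univ_castSucc]
      congr 1
      · refine Finset.prod_congr rfl fun i _ => ?_
        simp only [Fin.snocEquiv_apply]
        rw [Fin.snoc_castSucc, Fin.succ_castSucc, Fin.snoc_castSucc]
      · simp only [Fin.snocEquiv_apply]
        rw [Fin.snoc_castSucc, Fin.succ_last, Fin.snoc_last]
    simp only [h1]
    simp only [← Finset.mul_sum, h]
    rw [← Finset.sum_mul, ih]
    ring

private noncomputable def rotEquivFair (G : Cub D) (l : ℕ) : G.H l ≃ G.H l where
  toFun := Cub.H.rot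
  invFun C := ⟨C.n, fun i => C.c (i - 1), fun i => by
    have := C.fol (i - 1)
    rwa [show i - 1 + 1 = i + 1 - 1 by ring] at this⟩
  left_inv C := by
    obtain ⟨n, c, h⟩ := C
    have : (fun i => c (i - 1 + 1)) = c := funext fun i => by rw [sub_add_cancel]
    simp only [Cub.H.rot, Cub.H.mk.injEq, heq_eq_eq, true_and]
    exact this
  right_inv C := by
    obtain ⟨n, c, h⟩ := C
    have : (fun i => c (i + 1 - 1)) = c := funext fun i => by rw [add_sub_cancel_right]
    simp only [Cub.H.rot, Cub.H.mk.injEq, heq_eq_eq, true_and]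
    exact this

private lemma rot_sqFair {G : Cub D} {l : ℕ} (C : G.H l) (i : ℤ) :
    C.rot.sq i = C.sq (i + 1) := by
  change C.c ((i : ZMod (C.n.1 + 1)) + 1) = C.c (((i + 1 : ℤ)) : ZMod (C.n.1 + 1))
  push_cast
  rfl

private lemma shiftFair {G : Cub D} [Fintype D] {l : ℕ} (s : G.H l → ℝ)
    (hrot : ∀ C, s C.rot = s C) (g : D → D → ℝ) (i : ℕ) :
    ∑ C : G.H l, s C * g (C.sq i) (C.sq (i + 1)) =
      ∑ C : G.H l, s C * g (C.sq 0) (C.sq 1) := by
  induction i with
  | zero => simp
  | succ i ih =>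
    rw [← ih, ← (rotEquivFair G l).sum_comp (fun C => s C * g (C.sq i) (C.sq (i + 1)))]
    refine Finset.sum_congr rfl fun C _ => ?_
    change _ = s C.rot * g (C.rot.sq i) (C.rot.sq (i + 1))
    rw [hrot, rot_sqFair, rot_sqFair]
    push_cast
    rfl

private lemma window_leFair {G : Cub D} [Fintype D] {l : ℕ} (F : G.H l → ℝ) (w Mw : ℕ)
    (hw : ∀ p : ℕ → D, (open Classical in
      (Finset.univ.filter fun C : G.H l => ∀ i ≤ w, C.sq i = p i).card) ≤ Mw)
    (K : (Fin (w + 1) → D) → ℝ) (hK : ∀ p, 0 ≤ K p)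
    (hF : ∀ C : G.H l, F C ≤ K fun i => C.sq (i.1 : ℤ)) :
    ∑ C : G.H l, F C ≤ Mw * ∑ p, K p := by
  classical
  calc ∑ C : G.H l, F C ≤ ∑ C : G.H l, K fun i => C.sq (i.1 : ℤ) :=
        Finset.sum_le_sum fun C _ => hF C
    _ = ∑ p : Fin (w + 1) → D, ∑ C ∈ Finset.univ.filter
          (fun C : G.H l => (fun i : Fin (w + 1) => C.sq (i.1 : ℤ)) = p), K p := by
        rw [← Finset.sum_fiberwise (s := (Finset.univ : Finset (G.H l)))
          (g := fun C : G.H l => (fun i : Fin (w + 1) => C.sq (i.1 : ℤ)))]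
        refine Finset.sum_congr rfl fun p _ => Finset.sum_congr rfl fun C hC => ?_
        rw [(Finset.mem_filter.1 hC).2]
    _ ≤ ∑ p : Fin (w + 1) → D, Mw * K p := by
        refine Finset.sum_le_sum fun p _ => ?_
        rw [Finset.sum_const, nsmul_eq_mul]
        refine mul_le_mul_of_nonneg_right ?_ (hK p)
        have h1 := hw (fun i => if h : i < w + 1 then p ⟨i, h⟩ else p 0)
        have h2 : (Finset.univ.filter
            (fun C : G.H l => (fun i : Fin (w + 1) => C.sq (i.1 : ℤ)) = p)).card ≤ Mw := by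
          refine le_trans (Finset.card_le_card ?_) h1
          intro C hC
          rw [Finset.mem_filter] at hC ⊢
          refine ⟨Finset.mem_univ _, fun i hi => ?_⟩
          rw [dif_pos (Nat.lt_succ_of_le hi), ← hC.2]
        exact_mod_cast h2
    _ = Mw * ∑ p, K p := by rw [Finset.mul_sum]

open Classical in
/-- The conditional probabilities of the next dart, times two. -/
private noncomputable def phiFair {G : Cub D} [Fintype D] {l : ℕ} (s : G.H l → ℝ)
    (e f : D) : ℝ :=
  if Cub.y1 s e = 0 then 1 else 2 * Cub.y2 s e f / Cub.y1 s e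

open Classical in
private noncomputable def psiFair {G : Cub D} [Fintype D] {l : ℕ} (s : G.H l → ℝ)
    (e f : D) : ℝ :=
  (if f = G.σ (G.τ e) then phiFair s e f else 0) +
    (if f = G.σ (G.σ (G.τ e)) then phiFair s e f else 0)

private lemma y2_nonnegFair {G : Cub D} [Fintype D] {l : ℕ} (s : G.H l → ℝ)
    (hs : ∀ C, 0 ≤ s C) (e f : D) : 0 ≤ Cub.y2 s e f := by
  classical
  unfold Cub.y2
  refine Finset.sum_nonneg fun C _ => ?_
  split_ifs
  · exact hs C
  · exact le_rfl

private lemma phi_nonnegFair {G : Cub D} [Fintype D] {l : ℕ} (s : G.H l → ℝ)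
    (hs : ∀ C, 0 ≤ s C) (e f : D) : 0 ≤ phiFair s e f := by
  unfold phiFair
  split_ifs
  · exact zero_le_one
  · exact div_nonneg (mul_nonneg (by norm_num) (y2_nonnegFair s hs e f)) (y1_nonnegFair s hs e)

private lemma phi_le_psiFair {G : Cub D} [Fintype D] {l : ℕ} (s : G.H l → ℝ)
    (hs : ∀ C, 0 ≤ s C) (e f : D) (h : G.Fol e f) : phiFair s e f ≤ psiFair s e f := by
  unfold psiFair
  have h0 := phi_nonnegFair s hs e f
  rcases h with h | h
  · rw [if_pos h]
    split_ifs <;> linarith
  · rw [if_pos h]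
    split_ifs <;> linarith

private lemma psi_nonnegFair {G : Cub D} [Fintype D] {l : ℕ} (s : G.H l → ℝ)
    (hs : ∀ C, 0 ≤ s C) (e f : D) : 0 ≤ psiFair s e f := by
  unfold psiFair
  have h0 := phi_nonnegFair s hs e f
  split_ifs <;> linarith

private lemma sum_psiFair {G : Cub D} [Fintype D] {l : ℕ} (s : G.H l → ℝ) (e : D) :
    ∑ f, psiFair s e f = 2 := by
  classical
  unfold psiFair
  rw [Finset.sum_add_distrib]
  simp only [Finset.sum_ite_eq', Finset.mem_univ, if_true]
  have h1 := y1_eqFair s e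
  unfold phiFair
  by_cases hF : Cub.y1 s e = 0
  · simp only [hF, if_true]
    norm_num
  · simp only [hF, if_false]
    rw [← add_div, ← mul_add, ← h1, mul_div_assoc, div_self hF, mul_one]

/-- the first two darts of a walk of positive weight -/
private lemma y2_posFair {G : Cub D} [Fintype D] {l : ℕ} (s : G.H l → ℝ)
    (hs : ∀ C, 0 ≤ s C) (C : G.H l) (hC : 0 < s C) :
    0 < Cub.y2 s (C.sq 0) (C.sq 1) := by
  classical
  unfold Cub.y2
  refine lt_of_lt_of_le hC ?_
  have h1 : s C = if C.sq 0 = C.sq 0 ∧ C.sq 1 = C.sq 1 then s C else 0 := by simp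
  conv_lhs => rw [h1]
  refine Finset.single_le_sum (f := fun B : G.H l =>
    if B.sq 0 = C.sq 0 ∧ B.sq 1 = C.sq 1 then s B else 0) (fun B _ => ?_) (Finset.mem_univ C)
  split_ifs
  · exact hs B
  · exact le_rfl

private lemma y1_posFair {G : Cub D} [Fintype D] {l : ℕ} (s : G.H l → ℝ)
    (hs : ∀ C, 0 ≤ s C) (C : G.H l) (hC : 0 < s C) : 0 < Cub.y1 s (C.sq 0) := by
  classical
  unfold Cub.y1
  refine lt_of_lt_of_le hC ?_
  have h1 : s C = if C.sq 0 = C.sq 0 then s C else 0 := by simp
  conv_lhs => rw [h1]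
  refine Finset.single_le_sum (f := fun B : G.H l =>
    if B.sq 0 = C.sq 0 then s B else 0) (fun B _ => ?_) (Finset.mem_univ C)
  split_ifs
  · exact hs B
  · exact le_rfl

private lemma phi_posFair {G : Cub D} [Fintype D] {l : ℕ} (s : G.H l → ℝ)
    (hs : ∀ C, 0 ≤ s C) (hrot : ∀ C, s C.rot = s C) (i : ℕ) :
    ∀ C : G.H l, 0 < s C → 0 < phiFair s (C.sq (i : ℤ)) (C.sq ((i : ℤ) + 1)) := by
  induction i with
  | zero =>
    intro C hC
    have h1 := y1_posFair s hs C hC
    have h2 := y2_posFair s hs C hC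
    have h3 : 0 < phiFair s (C.sq 0) (C.sq 1) := by
      unfold phiFair
      rw [if_neg h1.ne']
      positivity
    simpa using h3
  | succ i ih =>
    intro C hC
    have h := ih C.rot (by rw [hrot]; exact hC)
    rw [rot_sqFair, rot_sqFair] at h
    push_cast
    exact h

private lemma sum_logFair {G : Cub D} [Fintype D] {l : ℕ} (s : G.H l → ℝ) :
    ∑ C : G.H l, s C * Real.logb 2 (phiFair s (C.sq 0) (C.sq 1)) = KL s := by
  classical
  unfold KL
  rw [← Finset.sum_fiberwise (s := (Finset.univ : Finset (G.H l)))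
      (g := fun C : G.H l => C.sq 0) (f := fun C => s C * Real.logb 2 _)]
  refine Finset.sum_congr rfl fun e _ => ?_
  rw [Finset.sum_filter]
  have h1 : (∑ C : G.H l, if C.sq 0 = e then
      s C * Real.logb 2 (phiFair s (C.sq 0) (C.sq 1)) else 0) =
      ∑ C : G.H l, if C.sq 0 = e then s C * Real.logb 2 (phiFair s e (C.sq 1)) else 0 := by
    refine Finset.sum_congr rfl fun C _ => ?_
    by_cases h : C.sq 0 = e
    · simp [h]
    · simp [h]
  rw [h1, sum_folFair s e (fun f => Real.logb 2 (phiFair s e f))]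
  have h3 := y1_eqFair s e
  unfold KK phiFair
  by_cases hF : Cub.y1 s e = 0
  · simp only [hF, if_true]
    rw [← h3, hF, div_zero, div_zero]
    simp
  · simp only [hF, if_false]
    rw [← h3]

/-- Entropy form of `unfair_small`: the divergence of the steps of an invariant weight. -/
theorem kl_le (G : Cub D) [Fintype D] {l : ℕ} (s : G.H l → ℝ) (hs : ∀ C, 0 ≤ s C)
    (hS : 0 < ∑ C, s C) (hrot : ∀ C, s C.rot = s C) (w Mw : ℕ)
    (hw : ∀ p : ℕ → D, (open Classical in
      (Finset.univ.filter fun C : G.H l => ∀ i ≤ w, C.sq i = p i).card) ≤ Mw) :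
    w * KL s ≤ (∑ C, s C * Real.logb 2 (s C)) +
      (∑ C, s C) * Real.logb 2 (Mw * Fintype.card D * 2 ^ w / ∑ C, s C) := by
  classical
  set S := ∑ C, s C with hSdef
  set A : ℝ := Mw * Fintype.card D * 2 ^ w with hA
  have hC0 : ∃ C : G.H l, 0 < s C := by
    by_contra hcon
    push Not at hcon
    exact absurd hS (not_lt.2 (Finset.sum_nonpos fun C _ => hcon C))
  obtain ⟨C0, -⟩ := hC0
  have hMw : 0 < Mw := by
    refine lt_of_lt_of_le ?_ (hw fun i => C0.sq i)
    refine Finset.card_pos.2 ⟨C0, ?_⟩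
    rw [Finset.mem_filter]
    exact ⟨Finset.mem_univ _, fun i _ => rfl⟩
  have hD : 0 < Fintype.card D := Fintype.card_pos_iff.2 ⟨C0.sq 0⟩
  have hA0 : 0 < A := by
    have h1 : (0 : ℝ) < Mw := by exact_mod_cast hMw
    have h2 : (0 : ℝ) < Fintype.card D := by exact_mod_cast hD
    positivity
  -- the product along the window
  set P : G.H l → ℝ := fun C => ∏ i ∈ Finset.range w,
    phiFair s (C.sq (i : ℤ)) (C.sq ((i : ℤ) + 1)) with hP
  have hPnn : ∀ C, 0 ≤ P C := fun C => Finset.prod_nonneg fun i _ => phi_nonnegFair s hs _ _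
  have hPpos : ∀ C, 0 < s C → 0 < P C := fun C hC =>
    Finset.prod_pos fun i _ => phi_posFair s hs hrot i C hC
  have hPsum : ∑ C, P C ≤ A := by
    have h1 : A = Mw * (Fintype.card D * 2 ^ w) := by rw [hA]; ring
    rw [h1, ← sum_chainFair (psiFair s) (sum_psiFair s) w]
    refine window_leFair P w Mw hw _
      (fun p => Finset.prod_nonneg fun i _ => psi_nonnegFair s hs _ _) fun C => ?_
    rw [hP]
    simp only
    rw [Finset.prod_range]
    refine Finset.prod_le_prod (fun i _ => phi_nonnegFair s hs _ _) fun i _ => ?_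
    have hf : G.Fol (C.sq (i.1 : ℤ)) (C.sq ((i.1 : ℤ) + 1)) := by
      have := C.fol ((i.1 : ℤ) : ZMod (C.n.1 + 1))
      simpa [Cub.H.sq] using this
    have := phi_le_psiFair s hs _ _ hf
    simpa using this
  have hlog2 : 0 < Real.log 2 := Real.log_pos (by norm_num)
  have hmain : ∑ C, s C * Real.log (P C) ≤ ∑ C, s C * Real.log (s C) + S * Real.log (A / S) := by
    have h1 : ∀ C, s C * Real.log (P C) ≤ s C * Real.log (s C) + s C * Real.log (A / S) +
        (P C * S / A - s C) := by
      intro C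
      rcases (hs C).eq_or_lt with h0 | h0
      · rw [← h0]
        have := hPnn C
        have h2 : 0 ≤ P C * S / A := by positivity
        simpa using h2
      · have hp := hPpos C h0
        have h2 := Real.log_le_sub_one_of_pos (show 0 < P C / (s C * (A / S)) by positivity)
        rw [Real.log_div hp.ne' (by positivity), Real.log_mul h0.ne' (by positivity)] at h2
        have h3 := mul_le_mul_of_nonneg_left h2 (hs C)
        have h4 : s C * (P C / (s C * (A / S)) - 1) = P C * S / A - s C := by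
          field_simp
        rw [h4] at h3
        linarith
    calc ∑ C, s C * Real.log (P C)
        ≤ ∑ C, (s C * Real.log (s C) + s C * Real.log (A / S) + (P C * S / A - s C)) :=
          Finset.sum_le_sum fun C _ => h1 C
      _ = ∑ C, s C * Real.log (s C) + S * Real.log (A / S) + ((∑ C, P C) * S / A - S) := by
          rw [Finset.sum_add_distrib, Finset.sum_add_distrib, Finset.sum_sub_distrib,
            ← Finset.sum_mul, ← Finset.sum_div, ← Finset.sum_mul]
      _ ≤ _ := by
          have h2 : (∑ C, P C) * S / A ≤ S := by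
            rw [div_le_iff₀ hA0, mul_comm S A]
            exact mul_le_mul_of_nonneg_right hPsum hS.le
          linarith
  have hexp : ∑ C, s C * Real.logb 2 (P C) = w * KL s := by
    have h1 : ∀ C, s C * Real.logb 2 (P C) = ∑ i ∈ Finset.range w,
        s C * Real.logb 2 (phiFair s (C.sq (i : ℤ)) (C.sq ((i : ℤ) + 1))) := by
      intro C
      rcases (hs C).eq_or_lt with h0 | h0
      · rw [← h0]
        simp
      · rw [hP]
        simp only
        rw [Real.logb_prod _ _ (fun i _ => (phi_posFair s hs hrot i C h0).ne'), Finset.mul_sum]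
    rw [Finset.sum_congr rfl fun C _ => h1 C, Finset.sum_comm]
    rw [Finset.sum_congr rfl fun i _ =>
      shiftFair s hrot (fun e f => Real.logb 2 (phiFair s e f)) i]
    rw [Finset.sum_const, Finset.card_range, nsmul_eq_mul, sum_logFair]
  rw [← hexp]
  have e1 : ∀ g : G.H l → ℝ, ∑ C, s C * Real.logb 2 (g C) =
      (∑ C, s C * Real.log (g C)) / Real.log 2 := by
    intro g
    rw [Finset.sum_div]
    exact Finset.sum_congr rfl fun C _ => by rw [Real.logb]; ring
  rw [e1, e1]
  have e2 : S * Real.logb 2 (A / S) = S * Real.log (A / S) / Real.log 2 := by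
    rw [Real.logb]; ring
  rw [e2, ← add_div]
  exact div_le_div_of_nonneg_right hmain hlog2.le

end Pool.Agent.CP52
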