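import Pool.Agent.CP51.MainCub
import Pool.Agent.CP52.Num
import Pool.Agent.CP52.Window
import Pool.Agent.CP52.Balance
import Pool.Agent.CP52.MeetAll
import Pool.Agent.CP52.Tilt

/-!
# The main step, sharper version
-/

namespace Pool.Agent.CP52

open Finset Pool.Agent.CP51

variable {D : Type}

/-- Many closed walks outside a small set. -/
lemma avoid {k : ℕ} (hk : CP52.Num k) (G : Cub D) [Fintype D] (N : ℕ)
    (hD : Fintype.card D = 3 * N) (h1 : 2 ^ k ≤ N) (h2 : N < 2 ^ (k + 1))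
    (hG : G.Girth (2 * (k - k / 460))) (M : ℕ) (hM : 18000 * M ≤ N) (X : Finset D)
    (hX : ∀ d ∈ X, G.σ d ∈ X) (hXM : X.card ≤ 3 * M) :
    (2 : ℝ) ^ (2 * k - k / 420 : ℕ) ≤ (open Classical in
      ((univ.filter fun C : G.H (2 * (k + k / 4000)) => ∀ i : ℤ, C.sq i ∉ X).card : ℝ)) := by
  classical
  have hb := hk.big
  have hN0 : 0 < N := lt_of_lt_of_le (by positivity) h1
  have hN0r : (0 : ℝ) < N := by exact_mod_cast hN0
  obtain ⟨S, hS, hτ, hSX, hcount⟩ := core G N M hD X hX hXM (by omega)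
  have hβ : (1 : ℝ) - 1 / 4500 ≤ 1 - 4 * M / N := by
    have : (18000 : ℝ) * M ≤ N := by exact_mod_cast hM
    have h3 : (4 : ℝ) * M / N ≤ 1 / 4500 := by
      rw [div_le_iff₀ hN0r]
      linarith
    linarith
  set r := k + k / 4000 with hr
  have hc := hcount r
  set E : ℝ := 2 ^ ((r : ℝ) * (1 - 4 * M / N)) with hE
  have hE0 : 0 < E := by positivity
  have hf1 : (12 : ℝ) * 2 ^ k ≤ E := CP52.fact1 hk hβ
  have hf2 := CP52.fact2 hk hβ
  rw [← hr, ← hE] at hf2
  have hS0 : (0 : ℝ) < S.card := by exact_mod_cast hS.card_pos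
  have hSN : (S.card : ℝ) ≤ 6 * 2 ^ k := by
    have h3 : S.card ≤ 3 * N := hD ▸ card_le_univ S
    have h4 : S.card ≤ 6 * 2 ^ k := by
      rw [pow_succ] at h2
      omega
    exact_mod_cast h4
  have hT : 2 * (S.card : ℝ) ^ 2 ≤ ((G.walks S r).card : ℝ) := by
    refine le_trans ?_ hc
    nlinarith
  have hcc := count_closed G hG (le_refl (2 * (k - k / 460))) S hS hτ r (by omega) hT
  set c1 : ℝ := ((univ.filter fun C : G.H (2 * r) => ∀ i : ℤ, C.sq i ∈ S).card : ℝ) with hc1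
  have hsub : c1 ≤ ((univ.filter fun C : G.H (2 * r) => ∀ i : ℤ, C.sq i ∉ X).card : ℝ) := by
    rw [hc1]
    have : (univ.filter fun C : G.H (2 * r) => ∀ i : ℤ, C.sq i ∈ S) ⊆
      (univ.filter fun C : G.H (2 * r) => ∀ i : ℤ, C.sq i ∉ X) := by
      intro C hC
      simp only [mem_filter, mem_univ, true_and] at hC ⊢
      exact fun i => hSX _ (hC i)
    exact_mod_cast card_le_card this
  refine le_trans ?_ hsub
  have h5 : E ^ 2 / 2 ≤ ((G.walks S r).card : ℝ) ^ 2 / (2 * (S.card : ℝ) ^ 2) := by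
    rw [div_le_div_iff₀ (by norm_num) (by positivity)]
    have : (S.card * E) ^ 2 ≤ ((G.walks S r).card : ℝ) ^ 2 := by gcongr
    nlinarith
  have h6 := h5.trans hcc
  have hr0 : (0 : ℝ) < r := by
    have : 0 < r := by omega
    exact_mod_cast this
  have h7 : (0 : ℝ) < r * 2 ^ (r - (k - k / 460)) := by positivity
  have h8 : (2 : ℝ) ^ (2 * k - k / 420 : ℕ) * (r * 2 ^ (r - (k - k / 460))) ≤
      c1 * (r * 2 ^ (r - (k - k / 460))) := by
    have h9 : (2 : ℝ) ^ (2 * k - k / 420 : ℕ) * (r * 2 ^ (r - (k - k / 460))) * 2 ≤ E ^ 2 := by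
      refine le_trans (le_of_eq ?_) hf2
      ring
    linarith
  exact le_of_mul_le_mul_right h8 h7

/-- Many closed walks disjoint from a short list of walks. -/
lemma avoid_list {k : ℕ} (hk : CP52.Num k) (G : Cub D) [Fintype D] (N : ℕ)
    (hD : Fintype.card D = 3 * N) (h1 : 2 ^ k ≤ N) (h2 : N < 2 ^ (k + 1))
    (hG : G.Girth (2 * (k - k / 460))) (F : List (G.H (2 * (k + k / 4000))))
    (hF : 18000 * (F.length * (2 * (k + k / 4000))) ≤ N) :
    (2 : ℝ) ^ (2 * k - k / 420 : ℕ) ≤ (open Classical in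
      ((univ.filter fun C : G.H (2 * (k + k / 4000)) => ∀ A ∈ F, A.Dj C).card : ℝ)) := by
  classical
  set X : Finset D := univ.filter fun d => ∃ A ∈ F, A.On d with hXdef
  have hX : ∀ d ∈ X, G.σ d ∈ X := by
    intro d hd
    simp only [hXdef, mem_filter, mem_univ, true_and] at hd ⊢
    obtain ⟨A, hA, hd⟩ := hd
    exact ⟨A, hA, on_sigma G A hd⟩
  have hXM : X.card ≤ 3 * (F.length * (2 * (k + k / 4000))) := by
    have key : ∀ F : List (G.H (2 * (k + k / 4000))),
        (univ.filter fun d => ∃ A ∈ F, A.On d).card ≤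
          3 * (F.length * (2 * (k + k / 4000))) := by
      intro F
      induction F with
      | nil => simp
      | cons A F ih =>
        have h3 : (univ.filter fun d => ∃ B ∈ A :: F, B.On d) ⊆
            (univ.filter fun d => A.On d) ∪ (univ.filter fun d => ∃ B ∈ F, B.On d) := by
          intro d hd
          simp only [mem_filter, mem_univ, true_and, List.mem_cons, mem_union] at hd ⊢
          obtain ⟨B, rfl | hB, hd⟩ := hd
          · exact Or.inl hd
          · exact Or.inr ⟨B, hB, hd⟩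
        have h4 := card_on G A
        have h5 : A.len ≤ 2 * (k + k / 4000) := A.n.2
        have h6 := (card_le_card h3).trans (card_union_le _ _)
        rw [List.length_cons]
        have h7 : (F.length + 1) * (2 * (k + k / 4000)) =
          F.length * (2 * (k + k / 4000)) + 2 * (k + k / 4000) := by ring
        omega
    exact key F
  have h3 := avoid hk G N hD h1 h2 hG (F.length * (2 * (k + k / 4000))) hF X hX hXM
  refine h3.trans ?_
  have h4 : (univ.filter fun C : G.H (2 * (k + k / 4000)) => ∀ i : ℤ, C.sq i ∉ X) ⊆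
      (univ.filter fun C : G.H (2 * (k + k / 4000)) => ∀ A ∈ F, A.Dj C) := by
    intro C hC
    simp only [mem_filter, mem_univ, true_and, hXdef] at hC ⊢
    intro A hA d hd
    obtain ⟨hd1, i, hi⟩ := hd
    apply hC i
    refine ⟨A, hA, ?_⟩
    rcases hi with hi | hi | hi
    · rw [← hi]; exact hd1
    · have : G.σ (G.σ d) = C.sq i := by rw [hi, G.σσσ]
      rw [← this]
      exact on_sigma G A (on_sigma G A hd1)
    · have : G.σ d = C.sq i := by rw [hi, G.σσσ]
      rw [← this]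
      exact on_sigma G A hd1
  exact_mod_cast card_le_card h4

/-- The logarithmic volume of a window. -/
noncomputable def Lam (k N : ℕ) : ℝ :=
  Real.logb 2 (((2 * (k + k / 4000) *
      2 ^ (2 * (k + k / 4000) - 2 * (k - k / 460)) : ℕ) : ℝ) *
      ((3 * N : ℕ) : ℝ) * 2 ^ (k - k / 460))

/-- Two independent short cycles are joined by many edges on the average. -/
lemma energy {k : ℕ} (hk : CP52.Num k) (G : Cub D) [Fintype D] (N : ℕ)
    (hD : Fintype.card D = 3 * N) (h1 : 2 ^ k ≤ N) (h2 : N < 2 ^ (k + 1))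
    (hG : G.Girth (2 * (k - k / 460))) (s : G.H (2 * (k + k / 4000)) → ℝ)
    (hs : ∀ C, 0 ≤ s C) (hS : 0 < ∑ C, s C) (hi : Cub.Inv s)
    (hρ : ∀ C, s C ≤ (2 : ℝ)⁻¹ ^ (k + k / 130 : ℕ) * ∑ B, s B) :
    (0.3906 * (((2 * (k - k / 460) : ℕ) : ℝ) ^ 2 / ((3 * N : ℕ) : ℝ))) * (∑ C, s C) ^ 2 -
      (1.76 * (((2 * (k - k / 460) : ℕ) : ℝ) ^ 2 / ((3 * N : ℕ) : ℝ)) /
        ((k - k / 460 : ℕ) : ℝ)) * (∑ C, s C) * ((∑ C, s C * Real.logb 2 (s C)) +
        (∑ C, s C) * (Lam k N - Real.logb 2 (∑ C, s C))) ≤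
      (open Classical in
        ∑ A, ∑ B, s A * s B * (if A.Dj B then (A.ch B : ℝ) else 0)) := by
  classical
  have hb := hk.big
  have hN0 : 0 < N := lt_of_lt_of_le (by positivity) h1
  have hN0r : (0 : ℝ) < ((3 * N : ℕ) : ℝ) := by exact_mod_cast (by omega : 0 < 3 * N)
  have hw0 : (0 : ℝ) < ((k - k / 460 : ℕ) : ℝ) := by
    have : 0 < k - k / 460 := by omega
    exact_mod_cast this
  have hkl := kl_le G s hs hS hi.1 (k - k / 460)
    (2 * (k + k / 4000) * 2 ^ (2 * (k + k / 4000) - 2 * (k - k / 460)))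
    (fun p => window_count G hG (le_refl _) (by omega) _ p)
  rw [hD] at hkl
  have hMw : (0 : ℝ) < ((2 * (k + k / 4000) *
      2 ^ (2 * (k + k / 4000) - 2 * (k - k / 460)) : ℕ) : ℝ) := by
    have : 0 < 2 * (k + k / 4000) * 2 ^ (2 * (k + k / 4000) - 2 * (k - k / 460)) := by
      have : 0 < k := by omega
      positivity
    exact_mod_cast this
  rw [Real.logb_div (by positivity) hS.ne'] at hkl
  change _ ≤ _ + _ * (Lam k N - _) at hkl
  have hbal := balance G s hs hi 0.22 (by norm_num)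
  rw [hD] at hbal
  have hcon := contact G hG s hs hi.1 _
    (6 * (2 * (k + k / 4000)) ^ 3 * 2 ^ (2 * (k + k / 4000) -
      (k - 2 * (k / 460) - k / 4000 - 1) - (k - k / 460))) hρ
    (fun A => meet_count G hG (by omega) (le_refl _) (by omega) (by omega) (by omega) A)
  refine le_trans ?_ hcon
  have hf4 := CP52.fact4 hk h2
  have h5 : (2 : ℝ)⁻¹ ^ (k + k / 130 : ℕ) *
      ((6 * (2 * (k + k / 4000)) ^ 3 * 2 ^ (2 * (k + k / 4000) -
        (k - 2 * (k / 460) - k / 4000 - 1) - (k - k / 460)) : ℕ) : ℝ) ≤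
      1 / (1000 * ((3 * N : ℕ) : ℝ)) := by
    rw [le_div_iff₀ (by positivity)]
    exact hf4
  set S := ∑ C, s C with hSdef
  set Tt := (∑ C, s C * Real.logb 2 (s C)) + S * (Lam k N - Real.logb 2 S) with hTt
  set w : ℝ := ((k - k / 460 : ℕ) : ℝ) with hw
  set Q := ∑ d : D, Cub.xx s d * Cub.xx s (G.τ d) with hQ
  set g2 : ℝ := ((2 * (k - k / 460) : ℕ) : ℝ) ^ 2 with hg2
  set N3 : ℝ := ((3 * N : ℕ) : ℝ) with hN3
  set R := (2 : ℝ)⁻¹ ^ (k + k / 130 : ℕ) *
      ((6 * (2 * (k + k / 4000)) ^ 3 * 2 ^ (2 * (k + k / 4000) -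
        (k - 2 * (k / 460) - k / 4000 - 1) - (k - k / 460)) : ℕ) : ℝ) with hR
  have hg20 : 0 ≤ g2 := sq_nonneg _
  have h6 : (0.3906 / N3) * S ^ 2 - (1.76 / N3 / w) * S * Tt ≤ Q - R * S ^ 2 := by
    have a1 : KL s ≤ Tt / w := by
      rw [le_div_iff₀ hw0]
      linarith
    have a2 : S * KL s ≤ S * (Tt / w) := mul_le_mul_of_nonneg_left a1 hS.le
    have a3 : R * S ^ 2 ≤ 1 / (1000 * N3) * S ^ 2 :=
      mul_le_mul_of_nonneg_right h5 (sq_nonneg _)
    have a4 : 0.3916 * S ^ 2 - 1.76 * (S * (Tt / w)) ≤ N3 * Q := by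
      refine le_trans ?_ hbal
      have : 8 * 0.22 * S * KL s = 1.76 * (S * KL s) := by ring
      rw [this]
      norm_num at a2 ⊢
      linarith
    have a5 : (0.3916 * S ^ 2 - 1.76 * (S * (Tt / w))) / N3 ≤ Q := by
      rw [div_le_iff₀ hN0r]
      linarith
    have a6 : (0.3916 * S ^ 2 - 1.76 * (S * (Tt / w))) / N3 - 1 / (1000 * N3) * S ^ 2 =
      (0.3906 / N3) * S ^ 2 - (1.76 / N3 / w) * S * Tt := by
      field_simp
      ring
    linarith
  have h7 := mul_le_mul_of_nonneg_left h6 hg20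
  refine le_trans (le_of_eq ?_) h7
  field_simp

/-- The main step: disjoint short cycles with many edges between them. -/
theorem main_cub : ∃ K : ℕ, ∀ k ≥ K, ∀ (D : Type) (_ : Fintype D) (G : Cub D) (N : ℕ),
    Fintype.card D = 3 * N → 2 ^ k ≤ N → N < 2 ^ (k + 1) →
    ∃ (m l : ℕ) (F : Fin m → G.H l), 1 ≤ m ∧ 8 * k * m ≤ N ∧
      (∀ i j, i ≠ j → (F i).Dj (F j)) ∧ (∀ i, (F i).Simple) ∧
      ∑ i, (F i).len ≤ (2 * k - k / 235) * m +
        ∑ i, ∑ j ∈ Finset.univ.filter (fun j => i < j), (F i).ch (F j) := by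
  classical
  obtain ⟨K, hK⟩ := CP52.ev_num
  refine ⟨K, fun k hkK D _ G N hD h1 h2 => ?_⟩
  have hk := hK k hkK
  have hb := hk.big
  have hN0 : 0 < N := lt_of_lt_of_le (by positivity) h1
  have hn6 : 10000000000 * k ≤ N := by
    have h3 := hk.n5
    have h4 : 10000000000 * k ^ 2 ≤ 2 ^ k := by exact_mod_cast h3
    nlinarith
  by_cases hG : G.Girth (2 * (k - k / 460))
  swap
  · obtain ⟨l, C, hC, hs⟩ := short_simple G _ hG
    refine ⟨1, l, fun _ => C, le_rfl, by omega, ?_, fun _ => hs, ?_⟩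
    · intro i j hij
      exact absurd (Subsingleton.elim i j) hij
    · simp only [univ_unique, sum_singleton, mul_one]
      omega
  by_contra hcon
  push Not at hcon
  set l := 2 * (k + k / 4000) with hl
  set m := N / (18000 * l) + 1 with hm
  have hl0 : 0 < l := by omega
  have hmN : 18000 * ((m - 1) * l) ≤ N := by
    have h3 := Nat.div_mul_le_self N (18000 * l)
    have h4 : m - 1 = N / (18000 * l) := by rw [hm, Nat.add_sub_cancel]
    rw [h4]
    calc 18000 * (N / (18000 * l) * l) = N / (18000 * l) * (18000 * l) := by ring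
      _ ≤ N := h3
  have hm2 : 2 ≤ m := by
    have : 1 ≤ N / (18000 * l) := by
      rw [Nat.one_le_div_iff (by omega)]
      omega
    rw [hm]
    exact Nat.succ_le_succ this
  have h8 : 8 * k * m ≤ N := by
    have h3 : 2 * k ≤ l := by omega
    have h4 : (m - 1) * (2 * k) ≤ (m - 1) * l := Nat.mul_le_mul_left _ h3
    have h5 : m = (m - 1) + 1 := by omega
    rw [h5]
    nlinarith
  have hsimple : ∀ C : G.H l, C.Simple := fun C =>
    simple_of_girth G hG C (by
      have : C.len ≤ l := C.n.2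
      omega)
  have hno : ∀ F : Fin m → G.H l, (∀ i j, i ≠ j → (F i).Dj (F j)) →
      (∑ i, ∑ j ∈ Finset.univ.filter (fun j => i < j), ((F i).ch (F j) : ℝ)) ≤
        (2 * ((k / 4000 : ℕ) : ℝ) + ((k / 235 : ℕ) : ℝ)) * m := by
    intro F hF
    have h3 := hcon m l F (by omega) h8 hF (fun i => hsimple _)
    have h4 : ∑ i, (F i).len ≤ m * l := by
      calc ∑ i, (F i).len ≤ ∑ _i : Fin m, l := sum_le_sum fun i _ => (F i).n.2
        _ = m * l := by simp
    have h5 : (2 * k - k / 235) * m + (2 * (k / 4000) + k / 235) * m = m * l := by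
      have : 2 * k - k / 235 + (2 * (k / 4000) + k / 235) = l := by omega
      rw [← this]; ring
    have h6 : ∑ i, ∑ j ∈ Finset.univ.filter (fun j => i < j), (F i).ch (F j) ≤
        (2 * (k / 4000) + k / 235) * m := by omega
    exact_mod_cast h6
  have hg0 : (0 : ℝ) < ((2 * (k - k / 460) : ℕ) : ℝ) := by
    have : 0 < 2 * (k - k / 460) := by omega
    exact_mod_cast this
  have hN3 : (0 : ℝ) < ((3 * N : ℕ) : ℝ) := by exact_mod_cast (by omega : 0 < 3 * N)
  have hw0 : (0 : ℝ) < ((k - k / 460 : ℕ) : ℝ) := by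
    have : 0 < k - k / 460 := by omega
    exact_mod_cast this
  have he0 : (0 : ℝ) < ((k / 4000 : ℕ) : ℝ) := by
    have : 0 < k / 4000 := by omega
    exact_mod_cast this
  set c1 : ℝ := ((2 * (k - k / 460) : ℕ) : ℝ) ^ 2 / ((3 * N : ℕ) : ℝ) with hc1
  have hc10 : 0 < c1 := by positivity
  have hκ2 : 0 ≤ 1.76 * c1 / ((k - k / 460 : ℕ) : ℝ) := by positivity
  set Λ' := Lam k N - Real.logb 2 ((2 : ℝ) ^ (2 * k - k / 420 : ℕ) /
        (10 * √(1 + (2 ^ 13 - 1) * ((2 * (k + k / 4000) : ℕ) : ℝ)))) with hΛ'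
  have hΛ : Λ' ≤ 0.0052 * k := CP52.fact3 hk h2 hN0
  have hκ3 : 0.3814 * c1 ≤ 0.3906 * c1 - 1.76 * c1 / ((k - k / 460 : ℕ) : ℝ) * Λ' := by
    have a1 : 1.76 * c1 / ((k - k / 460 : ℕ) : ℝ) * Λ' ≤
        1.76 * c1 / ((k - k / 460 : ℕ) : ℝ) * (0.0052 * k) :=
      mul_le_mul_of_nonneg_left hΛ hκ2
    have a2 : 1.76 * c1 / ((k - k / 460 : ℕ) : ℝ) * (0.0052 * k) ≤ 0.0092 * c1 := by
      rw [div_mul_eq_mul_div, div_le_iff₀ hw0]
      have a3 : (k : ℝ) * (459 / 460) ≤ ((k - k / 460 : ℕ) : ℝ) := by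
        rw [Nat.cast_sub (by omega)]
        have := CP52.div_le k 460
        push_cast at this
        linarith
      have a4 : c1 * ((k : ℝ) * (459 / 460)) ≤ c1 * ((k - k / 460 : ℕ) : ℝ) :=
        mul_le_mul_of_nonneg_left a3 hc10.le
      have a5 : (0 : ℝ) ≤ c1 * k := by positivity
      nlinarith
    linarith
  have ht := CP52.tilt (H := G.H l) (fun A B => A.Dj B) (fun A B => A.ch B) Rel
    (fun A B h d hd => h d ⟨hd.2, hd.1⟩) (fun A B _ => ch_comm G A B)
    (fun A B X h => h.1 X) (fun A B X h _ => h.2 X) m l (19 * k / 250)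
    (3 * (2 * (k + k / 4000)) ^ 3 * 2 ^ (2 * (k + k / 4000) - (k - k / 460))) hm2
    ((2 : ℝ) ^ (2 * k - k / 420 : ℕ)) (2 ^ 13 - 1) ((2 : ℝ)⁻¹ ^ (k + k / 130 : ℕ))
    (0.3906 * c1) (1.76 * c1 / ((k - k / 460 : ℕ) : ℝ)) (Lam k N)
    (2 * ((k / 4000 : ℕ) : ℝ) + ((k / 235 : ℕ) : ℝ)) (by positivity) (by norm_num)
    (by positivity) hκ2 (by positivity) (fun A B _ => ch_le G A B (hsimple B))
    (fun F hF _ => by
      refine avoid_list hk G N hD h1 h2 hG F (le_trans ?_ hmN)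
      have : F.length ≤ m - 1 := by omega
      gcongr)
    hno
    (fun s hs0 hS hsr hρ => by
      exact energy hk G N hD h1 h2 hG s hs0 hS
        ⟨fun C => hsr _ _ (rel_rot C), fun C => hsr _ _ (rel_rev C)⟩ hρ)
    (fun A => by
      have := meet_all G hG (le_refl _) (by omega) (by omega) A
      convert this using 2)
    (CP52.fact5 hk) (le_trans (by positivity) hκ3) (CP52.fact6 hk)
  exact CP52.fact7 hk h1 hm c1 _ hc1 hκ3 ht

end Pool.Agent.CP52
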